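import Mathlib

/-!
# Sets of prime numbers with divergent sum of reciprocals
-/

set_option autoImplicit false

namespace Pool.Agent.HP25.FM

open Filter Topology

/-- the sum of the `1 / p` over the `p` in `A` diverges -/
def Div (A : Set ℕ) : Prop := ¬ Summable (fun p : A => (1 : ℝ) / ((p : ℕ) : ℝ))

lemma div_iff (A : Set ℕ) : Div A ↔ ¬ Summable (A.indicator fun p : ℕ => (1 : ℝ) / (p : ℝ)) := by
  unfold Div
  rw [← summable_subtype_iff_indicator]
  rfl

lemma Div.mono {A B : Set ℕ} (h : Div A) (hAB : A ⊆ B) : Div B := by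
  rw [div_iff] at h ⊢
  intro hs
  refine h (Summable.of_nonneg_of_le (fun p => ?_) (fun p => ?_) hs)
  · exact Set.indicator_nonneg (fun p _ => by positivity) p
  · exact Set.indicator_le_indicator_of_subset hAB (fun p => by positivity) p

/-- finitely many elements do not matter -/
lemma Div.diff {A B : Set ℕ} (h : Div A) (hB : B.Finite) : Div (A \ B) := by
  classical
  rw [div_iff] at h ⊢
  intro hs
  apply h
  have h1 : Summable ((A ∩ B).indicator fun p : ℕ => (1 : ℝ) / (p : ℝ)) := by
    refine summable_of_hasFiniteSupport (hB.subset fun p hp => ?_)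
    exact (Set.support_indicator_subset hp).2
  refine (hs.add h1).congr fun p => ?_
  have h2 : A = (A \ B) ∪ (A ∩ B) := (Set.sdiff_union_inter A B).symm
  conv_rhs => rw [h2]
  rw [Set.indicator_union_of_disjoint (Set.disjoint_sdiff_inter) _]

lemma Div.infinite {A : Set ℕ} (h : Div A) : A.Infinite := by
  intro hA
  have : Finite A := hA
  exact h (Summable.of_finite)

lemma div_range {g : ℕ → ℕ} (hg : Function.Injective g) : Div (Set.range g) ↔ ¬ Summable fun i => (1 : ℝ) / (g i : ℝ) := by
  unfold Div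
  rw [← (Equiv.ofInjective g hg).summable_iff]
  rfl

/-- splitting in two -/
theorem Div.split {A : Set ℕ} (h : Div A) (h0 : 0 ∉ A) :
    ∃ A₁ A₂ : Set ℕ, A₁ ⊆ A ∧ A₂ ⊆ A ∧ Disjoint A₁ A₂ ∧ Div A₁ ∧ Div A₂ := by
  classical
  have hinf : Infinite A := h.infinite.to_subtype
  set e := Nat.Subtype.orderIsoOfNat A with he
  set g : ℕ → ℕ := fun i => (e i : ℕ) with hg
  have hmono : StrictMono g := fun i j hij => by
    have : e i < e j := e.strictMono hij
    exact this
  have hgA : ∀ i, g i ∈ A := fun i => (e i).2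
  have hpos : ∀ i, 0 < g i := fun i => Nat.pos_of_ne_zero fun h1 => h0 (h1 ▸ hgA i)
  have hr : Set.range g = A := by
    ext p
    constructor
    · rintro ⟨i, rfl⟩
      exact hgA i
    · intro hp
      exact ⟨e.symm ⟨p, hp⟩, by simp [hg]⟩
  have hall : ¬ Summable fun i => (1 : ℝ) / (g i : ℝ) := by
    rw [← div_range hmono.injective, hr]
    exact h
  set s0 : ℕ → ℝ := fun i => 1 / (g (2 * i) : ℝ) with hs0
  set s1 : ℕ → ℝ := fun i => 1 / (g (2 * i + 1) : ℝ) with hs1
  have hle : ∀ i j, i < j → (1 : ℝ) / (g j : ℝ) ≤ 1 / (g i : ℝ) := by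
    intro i j hij
    have h1 : (0 : ℝ) < g i := by exact_mod_cast hpos i
    have h2 : (g i : ℝ) ≤ g j := by exact_mod_cast (hmono hij).le
    exact one_div_le_one_div_of_le h1 h2
  have h01 : Summable s0 → Summable s1 := fun hs =>
    Summable.of_nonneg_of_le (fun i => by positivity) (fun i => hle _ _ (by omega)) hs
  have h10 : Summable s1 → Summable s0 := fun hs => by
    rw [← summable_nat_add_iff 1]
    exact Summable.of_nonneg_of_le (fun i => by positivity) (fun i => hle _ _ (by omega)) hs
  have hboth : ¬ (Summable s0 ∧ Summable s1) := by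
    rintro ⟨ha, hb⟩
    exact hall (ha.hasSum.even_add_odd hb.hasSum).summable
  have hn0 : ¬ Summable s0 := fun hs => hboth ⟨hs, h01 hs⟩
  have hn1 : ¬ Summable s1 := fun hs => hboth ⟨h10 hs, hs⟩
  have i0 : Function.Injective fun i => g (2 * i) := fun i j hij => by
    have := hmono.injective hij
    omega
  have i1 : Function.Injective fun i => g (2 * i + 1) := fun i j hij => by
    have := hmono.injective hij
    omega
  refine ⟨Set.range fun i => g (2 * i), Set.range fun i => g (2 * i + 1), ?_, ?_, ?_, ?_, ?_⟩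
  · rintro _ ⟨i, rfl⟩
    exact hgA _
  · rintro _ ⟨i, rfl⟩
    exact hgA _
  · rw [Set.disjoint_left]
    rintro _ ⟨i, rfl⟩ ⟨j, hj⟩
    have := hmono.injective hj
    omega
  · exact (div_range i0).2 hn0
  · exact (div_range i1).2 hn1

end Pool.Agent.HP25.FM
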