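import Pool.Agent.HP25.FM.A
import Pool.Agent.N978.HP.Final
import Pool.Agent.N279.HP.DV

/-!
# Families of motives: the members are good for every notion of almost all points for which the sieve holds
-/

set_option autoImplicit false
set_option linter.unusedSectionVars false

namespace Pool.Agent.HP25.FM

open NumberField IsDedekindDomain Polynomial Module Filter Topology
  Pool.Agent.Y114.TF Pool.Agent.Y114.GF Pool.Agent.H204R3.GP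
  Pool.Agent.Y114.MU Pool.Agent.Y114.RM Pool.Agent.R931.IR Pool.Agent.N203.RE
  Pool.Agent.N978.HP

/-- A notion `L` of almost all points of the projective line for which the sieve holds, for the targets which
are `ok`. -/
structure Notion (ok : ℕ → Pt → Prop) (L : (Pt → Prop) → Prop) : Prop where
  top : L fun _ => True
  mono : ∀ {A B : Pt → Prop}, L A → (∀ t, A t → B t) → L B
  and : ∀ {A B : Pt → Prop}, L A → L B → L fun t => A t ∧ B t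
  sv : ∀ (R : Set ℕ) (c : ℕ → Pt), (∀ p ∈ R, p.Prime) → (∀ p ∈ R, ok p (c p)) → Div R →
    L fun t => ∃ p ∈ R, t.Cong p (c p)

section

variable {ok : ℕ → Pt → Prop} {L : (Pt → Prop) → Prop}

theorem Notion.all (N : Notion ok L) {κ : Type} [Finite κ] {A : κ → Pt → Prop} (hA : ∀ i, L (A i)) :
    L fun t => ∀ i, A i t := by
  classical
  have hf : Fintype κ := Fintype.ofFinite κ
  have h1 : ∀ F : Finset κ, L fun t => ∀ i ∈ F, A i t := by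
    intro F
    induction F using Finset.induction_on with
    | empty => exact N.mono N.top fun t _ i hi => absurd hi (Finset.notMem_empty i)
    | insert a F ha ih =>
      refine N.mono (N.and (hA a) ih) ?_
      rintro t ⟨h2, h3⟩ i hi
      rcases Finset.mem_insert.1 hi with rfl | hi
      · exact h2
      · exact h3 i hi
  exact N.mono (h1 Finset.univ) fun t h i => h i (Finset.mem_univ i)

/-- two primes -/
theorem Notion.two (N : Notion ok L) (R : Set ℕ) (c : ℕ → Pt) (hp : ∀ p ∈ R, p.Prime)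
    (hok : ∀ p ∈ R, ok p (c p)) (hdiv : Div R) :
    L fun t => ∃ F : Finset ℕ, 2 ≤ F.card ∧ ∀ p ∈ F, p ∈ R ∧ t.Cong p (c p) := by
  classical
  obtain ⟨A₁, A₂, h1, h2, hd, hA₁, hA₂⟩ := hdiv.split fun h => (hp 0 h).ne_zero rfl
  refine N.mono (N.and (N.sv A₁ c (fun p h => hp p (h1 h)) (fun p h => hok p (h1 h)) hA₁)
    (N.sv A₂ c (fun p h => hp p (h2 h)) (fun p h => hok p (h2 h)) hA₂)) ?_
  rintro t ⟨⟨p, hp1, hpc⟩, ⟨q, hq1, hqc⟩⟩
  have hpq : p ≠ q := fun h => Set.disjoint_left.1 hd hp1 (h ▸ hq1)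
  refine ⟨{p, q}, ?_, ?_⟩
  · rw [Finset.card_pair hpq]
  · intro x hx
    rcases Finset.mem_insert.1 hx with rfl | hx
    · exact ⟨h1 hp1, hpc⟩
    · rw [Finset.mem_singleton.1 hx]
      exact ⟨h2 hq1, hqc⟩

theorem div_of_pos {A : Set ℕ} (hA : PosDensity A) (hp : ∀ p ∈ A, p.Prime) : Div A := by
  obtain ⟨δ, hδ, hev⟩ := hA
  exact Pool.Agent.N279.HP.t_DV A δ hp hδ hev

theorem Notion.zeros (N : Notion ok L) {C : MvPolynomial (Fin 2) ℤ} (hC : ∃ d, 0 < d ∧ C.IsHomogeneous d)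
    {m : ℕ} (hm : 0 < m) (hok : ({p : ℕ | p.Prime ∧ ∃ c : Pt, (p : ℤ) ∣ c.val C ∧ ¬ ok p c} : Set ℕ).Finite) :
    L fun t => ∃ F : Finset ℕ, 2 ≤ F.card ∧ ∀ p ∈ F, p.Prime ∧ ¬ p ∣ m ∧ (p : ℤ) ∣ t.val C := by
  classical
  have h1 : ∃ c₀ : Pt, True := ⟨⟨1, 0, isCoprime_one_left⟩, trivial⟩
  obtain ⟨c₀, -⟩ := h1
  have h2 : Div {p : ℕ | p.Prime ∧ ¬ p ∣ m ∧ ∃ c : Pt, (p : ℤ) ∣ c.val C} :=
    div_of_pos (posDensity_zeros hC hm) fun p hp => hp.1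
  refine N.mono (N.two _ (fun p => if hp : ∃ c : Pt, (p : ℤ) ∣ c.val C then hp.choose else c₀) (fun p hp => hp.1.1)
    (fun p hp => ?_) (h2.diff hok)) ?_
  · have hex := hp.1.2.2
    show ok p (if hp : ∃ c : Pt, (p : ℤ) ∣ c.val C then hp.choose else c₀)
    rw [dif_pos hex]
    by_contra hcon
    exact hp.2 ⟨hp.1.1, _, hex.choose_spec, hcon⟩
  · rintro t ⟨F, hF, hFp⟩
    refine ⟨F, hF, fun p hp => ?_⟩
    obtain ⟨⟨⟨hpp, hpm, hpc⟩, -⟩, hcong⟩ := hFp p hp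
    obtain ⟨d, -, hC⟩ := hC
    rw [dif_pos hpc] at hcong
    exact ⟨hpp, hpm, dvd_of_cong hpp hC hcong hpc.choose_spec⟩

end

section family

variable {Γ : Type} [Group Γ] [TopologicalSpace Γ] {ι : Type} [Fintype ι] [DecidableEq ι]
  {n : ι → ℕ} {s : Pt → Gal(AlgebraicClosure ℚ/ℚ) →* Γ} {w : ι → ℤ} {m : ℕ}
  {D : MvPolynomial (Fin 2) ℤ} {P : ℕ → Pt → ι → ℚ[X]}
  {ρ : ∀ (ℓ : ℕ) [Fact ℓ.Prime], Reps Γ n ℓ} {𝔤 : Submodule ℚ (End ℚ (Betti n))}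
  {ok : ℕ → Pt → Prop} {L : (Pt → Prop) → Prop}

/-- almost all members have two primes of maximal rank -/
theorem Notion.max (N : Notion ok L) (h : Family s w m D P ρ 𝔤) {t₀ : Pt} (ht₀ : InU D t₀)
    (hok : ({p : ℕ | p.Prime ∧ ¬ ok p t₀} : Set ℕ).Finite) (c : ℕ)
    (hc : ∀ v i, GoodAt m D t₀ (q v) → IntegralRoots c v (P (q v) t₀ i))
    (ℓ₀ : ℕ) [hℓ₀ : Fact ℓ₀.Prime] (σ : Gal(AlgebraicClosure ℚ/ℚ)) (r : ℕ)
    (hσ : IndependentEigenvalues (restrictTo (ρ ℓ₀) (s t₀)) σ r) (r' : ι → ℕ)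
    (hσ' : ∀ i, IndependentOn (restrictTo (ρ ℓ₀) (s t₀)) i σ (r' i)) :
    L fun t => ∃ F : Finset ℕ, 2 ≤ F.card ∧ ∀ p ∈ F, MaxAt m D P r r' t p := by
  have h1 : Div {p : ℕ | MaxAt m D P r r' t₀ p} :=
    div_of_pos (h.density ht₀ c hc ℓ₀ σ r hσ r' hσ') fun p hp => hp.1.1
  refine N.mono (N.two _ (fun _ => t₀) (fun p hp => hp.1.1.1) (fun p hp => ?_) (h1.diff hok)) ?_
  · by_contra hcon
    exact hp.2 ⟨hp.1.1.1, hcon⟩
  · rintro t ⟨F, hF, hFp⟩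
    exact ⟨F, hF, fun p hp => h.max_of_cong (hFp p hp).1.1 (hFp p hp).2⟩

/-- one member: the local conditions imply the theorem -/
theorem tate_of (h : Family s w m D P ρ 𝔤) {r : ℕ} (hr : RatRankLE 𝔤 r) {r' : ι → ℕ}
    {C : ι → MvPolynomial (Fin 2) ℤ} (hcusp : ∀ i, RegularCusp s m D (C i) ρ 𝔤 i (r' i)) {t : Pt}
    (hmax : ∃ F : Finset ℕ, 2 ≤ F.card ∧ ∀ p ∈ F, MaxAt m D P r r' t p)
    (hcu : ∀ i, ∃ F : Finset ℕ, 2 ≤ F.card ∧ ∀ p ∈ F, p.Prime ∧ ¬ p ∣ m ∧ (p : ℤ) ∣ t.val (C i)) :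
    InU D t ∧ ∀ (ℓ : ℕ) [Fact ℓ.Prime], Semisimple (restrictTo (ρ ℓ) (s t)) ∧
        TateTensorsOf (restrictTo (ρ ℓ) (s t)) (scalars ℓ 𝔤) := by
  obtain ⟨F, hF, hFp⟩ := hmax
  have htU : InU D t := by
    obtain ⟨p, hp, -⟩ := exists_ne hF 0
    exact inU_of_good (hFp p hp).1
  refine ⟨htU, fun ℓ hℓ => ?_⟩
  have hR := h.realizations htU
  obtain ⟨p₀, hp₀, hne⟩ := exists_ne hF ℓ
  obtain ⟨hgood, hr1, hr2⟩ := hFp p₀ hp₀
  refine tate_member (restrictTo (ρ ℓ) (s t))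
    (fun i => (h.continuous ℓ i).comp (h.continuous_point t htU)) w (scalars ℓ 𝔤)
    (motivic_restrict (h.motivic ℓ) (s t)) (badPlaces m D t) hR.finite (fun v => P (q v) t)
    (fun v hv hvℓ => hR.good ℓ v hv hvℓ) hgood.1 hne ?_ (rank_scalars ℓ hr) r' ?_ ?_
  · intro v hv hvb
    apply hvb
    show GoodAt m D t (q v)
    rw [q_eq hgood.1 hv]
    exact hgood
  · intro v hv
    rw [q_eq hgood.1 hv]
    exact ⟨hr1, hr2⟩
  · intro i
    obtain ⟨F', hF', hFp'⟩ := hcu i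
    obtain ⟨p, hp, hne'⟩ := exists_ne hF' ℓ
    obtain ⟨hpp, hpm, hdiv⟩ := hFp' p hp
    exact (hcusp i).2 t p htU hpp hpm hdiv ℓ hne'.symm

/-- **The Tate conjecture for almost all members, at every prime number.** -/
theorem Notion.tate (N : Notion ok L) (h : Family s w m D P ρ 𝔤) (r : ℕ) (hr : RatRankLE 𝔤 r) (r' : ι → ℕ)
    {t₀ : Pt} (ht₀ : InU D t₀) (hok : ({p : ℕ | p.Prime ∧ ¬ ok p t₀} : Set ℕ).Finite) (c : ℕ)
    (hc : ∀ v i, GoodAt m D t₀ (q v) → IntegralRoots c v (P (q v) t₀ i))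
    (ℓ₀ : ℕ) [hℓ₀ : Fact ℓ₀.Prime] (σ : Gal(AlgebraicClosure ℚ/ℚ))
    (hσ : IndependentEigenvalues (restrictTo (ρ ℓ₀) (s t₀)) σ r)
    (hσ' : ∀ i, IndependentOn (restrictTo (ρ ℓ₀) (s t₀)) i σ (r' i))
    (C : ι → MvPolynomial (Fin 2) ℤ) (hcusp : ∀ i, RegularCusp s m D (C i) ρ 𝔤 i (r' i))
    (hC : ∀ i, ({p : ℕ | p.Prime ∧ ∃ c : Pt, (p : ℤ) ∣ c.val (C i) ∧ ¬ ok p c} : Set ℕ).Finite) :
    L fun t => InU D t ∧ ∀ (ℓ : ℕ) [Fact ℓ.Prime],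
      Semisimple (restrictTo (ρ ℓ) (s t)) ∧
        TateTensorsOf (restrictTo (ρ ℓ) (s t)) (scalars ℓ 𝔤) := by
  have h1 := N.max h ht₀ hok c hc ℓ₀ σ r hσ r' hσ'
  have h3 : ∀ i, L fun t => ∃ F : Finset ℕ, 2 ≤ F.card ∧ ∀ p ∈ F,
      p.Prime ∧ ¬ p ∣ m ∧ (p : ℤ) ∣ t.val (C i) := fun i =>
    N.zeros (hcusp i).1 h.pos (hC i)
  refine N.mono (N.and h1 (N.all h3)) ?_
  rintro t ⟨hmax, hcu⟩
  exact tate_of h hr hcusp hmax hcu

end family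

end Pool.Agent.HP25.FM
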