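import Mathlib
import Pool.Agent.N978.HP.Base

/-!
# Properties of integral vectors and of points of the projective line: definitions (helper25)
-/

set_option autoImplicit false

namespace Pool.Agent.HP25.FM

open MeasureTheory ProbabilityTheory Filter Topology Pool.Agent.N978.HP

/-- the `d i j` are independent random integers of absolute value at most `M`, and no value has a
probability larger than `1 - η` -/
structure Digits {ι Ω : Type} [MeasurableSpace Ω] (P : Measure Ω) (M : ℕ) (η : ℝ) (d : ι → ℕ → Ω → ℤ) : Prop where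
  meas : ∀ i j, Measurable (d i j)
  indep : iIndepFun (fun ij : ι × ℕ => d ij.1 ij.2) P
  bdd : ∀ i j ω, |d i j ω| ≤ M
  atom : ∀ i j a, P.real {ω | d i j ω = a} ≤ 1 - η

/-- `γ` is not zero and has no prime factor larger than `M` -/
def Smooth (M : ℕ) (γ : ℤ) : Prop := γ ≠ 0 ∧ ∀ p : ℕ, p.Prime → (p : ℤ) ∣ γ → p ≤ M

/-- the random vector with the components `u i + ∑_{j < k} γ i j * d i j` -/
def rsum {ι Ω : Type} (u : ι → ℤ) (γ : ι → ℕ → ℤ) (k : ℕ) (d : ι → ℕ → Ω → ℤ) (ω : Ω) (i : ι) : ℤ :=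
  u i + ∑ j ∈ Finset.range k, γ i j * d i j ω

/-- `exp (2 π i x)` -/
noncomputable def ex (x : ℝ) : ℂ := Complex.exp (2 * Real.pi * x * Complex.I)

/-- The vector `α` is normal to the base `β`: the sequence `β ^ n α` is uniformly distributed modulo `1`
(Weyl's criterion). -/
def Normal {ι : Type} [Fintype ι] (β : ℕ) (α : ι → ℝ) : Prop :=
  ∀ h : ι → ℤ, h ≠ 0 →
    Tendsto (fun N : ℕ => (1 / (N : ℂ)) * ∑ n ∈ Finset.range N, ex (∑ i, (h i : ℝ) * ((β : ℝ) ^ n * α i))) atTop (𝓝 0)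

/-- the Fourier transform of `ν` has power decay (in the maximum norm) -/
def FourierDecay {ι : Type} [Fintype ι] (ν : Measure (ι → ℝ)) : Prop :=
  ∃ C t : ℝ, 0 < t ∧ ∀ ξ : ι → ℝ, ξ ≠ 0 → ‖∫ α, ex (∑ i, ξ i * α i) ∂ν‖ ≤ C * ‖ξ‖ ^ (-t)

/-- `E` has natural density zero. -/
def DensityZero (E : Set ℕ) : Prop :=
  Tendsto (fun N : ℕ => (({n : ℕ | n < N ∧ n ∈ E}.ncard : ℕ) : ℝ) / (N : ℝ)) atTop (𝓝 0)

/-- for all `q` prime to `M` the vectors `c 0, c 1, …` are uniformly distributed modulo `q` -/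
def Equidistributed {ι : Type} [Fintype ι] (M : ℕ) (c : ℕ → ι → ℤ) : Prop :=
  ∀ q : ℕ, 0 < q → q.Coprime M → ∀ y : ι → ZMod q,
    Tendsto (fun N : ℕ => (({n : ℕ | n < N ∧ (fun i => (c n i : ZMod q)) = y}.ncard : ℕ) : ℝ) / (N : ℝ)) atTop
      (𝓝 (((q : ℝ) ^ Fintype.card ι)⁻¹))

/-- There is one set `E` of density zero such that for every `k` the vectors `c n` have the property `G k`,
apart from the `n` in `E` and finitely many `n`. -/
def Good {ι κ : Type} (G : κ → (ι → ℤ) → Prop) (c : ℕ → ι → ℤ) : Prop :=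
  ∃ E : Set ℕ, DensityZero E ∧ ∀ k : κ, {n : ℕ | n ∉ E ∧ ¬ G k (c n)}.Finite

/-- The properties `G k` of integral vectors hold outside of small unions of residue classes, almost always for
random sums, and along equidistributed sequences, prefixes of normal numbers, metric sequences. -/
structure Usual {ι : Type} [Fintype ι] {κ : Type} (G : κ → (ι → ℤ) → Prop) : Prop where
  /-- a set `B` of a proportion `ε` of the classes modulo one `q` prime to `M` contains all exceptions -/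
  classes : ∀ (k : κ) (M : ℕ) (ε : ℝ), 0 < M → 0 < ε → ∃ q : ℕ, 0 < q ∧ q.Coprime M ∧
    ∃ B : Set (ι → ZMod q), (B.ncard : ℝ) ≤ ε * (q : ℝ) ^ Fintype.card ι ∧
      ∀ x : ι → ℤ, (fun i => (x i : ZMod q)) ∉ B → G k x
  /-- equidistributed sequences -/
  equi : ∀ (M : ℕ) (c : ℕ → ι → ℤ), 0 < M → Equidistributed M c → Good G c
  /-- random sums, uniformly -/
  unif : ∀ V : Set κ, V.Finite → ∀ (M : ℕ) (η ε : ℝ), 0 < η → 0 < ε → ∃ k₀ : ℕ, ∀ k ≥ k₀,
    ∀ (Ω : Type) [MeasurableSpace Ω] (P : Measure Ω) [IsProbabilityMeasure P] (δ : ι → ℕ → Ω → ℤ),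
    Digits P M η δ → ∀ γ : ι → ℕ → ℤ, (∀ i, ∀ j < k, Smooth M (γ i j)) → ∀ u : ι → ℤ,
    P.real {w | ∃ v ∈ V, ¬ G v (rsum u γ k δ w)} ≤ ε
  /-- random sums, almost surely -/
  sums : ∀ (Ω : Type) [MeasurableSpace Ω] (P : Measure Ω) [IsProbabilityMeasure P] (M : ℕ) (η : ℝ)
    (δ : ι → ℕ → Ω → ℤ), 0 < η → Digits P M η δ → ∀ γ : ℕ → ι → ℕ → ℤ, (∀ n i, ∀ j < n, Smooth M (γ n i j)) →
    ∀ u : ℕ → ι → ℤ, ∀ᵐ w ∂P, Good G fun n => rsum (u n) (γ n) n δ w
  /-- normal numbers -/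
  normal : ∀ (β : ℕ) (α : ι → ℝ), 2 ≤ β → Normal β α → Good G fun n i => ⌊(β : ℝ) ^ n * α i⌋
  /-- Fourier decay -/
  decay : ∀ (ν : Measure (ι → ℝ)) [IsFiniteMeasure ν], FourierDecay ν → ∀ (a : ι → ℕ → ℝ) (t₀ : ℝ), 0 < t₀ →
    (∀ i l n, l ≠ n → t₀ ≤ |a i l - a i n|) → ∀ β : ι → ℕ → ℝ, ∀ᵐ α ∂ν, Good G fun n i => ⌊a i n * α i + β i n⌋

/-- `t` is the point of the projective line with the homogeneous coordinates `x`, which may have common
divisors. -/
def Rep (x : Fin 2 → ℤ) (t : Pt) : Prop := ∃ g : ℤ, x 0 = g * t.a ∧ x 1 = g * t.b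

/-- the point `(x 0 : x 1)` of the projective line has the property `A` -/
def At (A : Pt → Prop) (x : Fin 2 → ℤ) : Prop := x ≠ 0 ∧ ∀ t : Pt, Rep x t → A t

/-- the point `(a n + b : c n + d)` -/
def lft (a b c d : ℤ) (n : ℤ) : Fin 2 → ℤ := ![a * n + b, c * n + d]

/-- the property `A` holds for 100 percent of the prime numbers -/
def MostPrimes (A : ℕ → Prop) : Prop :=
  Tendsto (fun N : ℕ => (({q : ℕ | q ≤ N ∧ q.Prime ∧ ¬ A q}.ncard : ℕ) : ℝ) / (Nat.primeCounting N : ℝ)) atTop (𝓝 0)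

/-- `n ↦ (a n + b : c n + d)` is a parametrization of the projective line, and the image `(a : c)` of the point at
infinity is not `t₀`. -/
def Chart (t₀ : Pt) (a b c d : ℤ) : Prop := a * d - b * c ≠ 0 ∧ t₀.a * c - t₀.b * a ≠ 0

/-- The points of the projective line have the property `G` almost always, in each of the following senses. -/
structure Everywhere (t₀ : Pt) (G : Pt → Prop) : Prop where
  /-- 100 percent of the points, ordered by height -/
  height : AlmostAll G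
  /-- homogeneous coordinates: the points `x + v` -/
  vectors : Usual fun v x : Fin 2 → ℤ => At G fun i => x i + v i
  /-- integers: the points `(a x + b : c x + d)` -/
  integers : Usual fun (g : {g : ℤ × ℤ × ℤ × ℤ // Chart t₀ g.1 g.2.1 g.2.2.1 g.2.2.2}) (x : Fin 1 → ℤ) =>
    At G (lft g.1.1 g.1.2.1 g.1.2.2.1 g.1.2.2.2 (x 0))
  /-- 100 percent of the prime numbers -/
  primes : ∀ a b c d : ℤ, Chart t₀ a b c d → Chart t₀ b a d c → MostPrimes fun p => At G (lft a b c d p)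

end Pool.Agent.HP25.FM
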