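import Pool.Agent.HP25.FM.B
import Pool.Agent.HP25.FM.Defs
import Pool.Agent.N24.RW.Crit
import Pool.Agent.N24.RW.Clo

/-!
# Pronull sets of integral vectors and of integers, and the points of the projective line
-/

set_option autoImplicit false
set_option linter.unusedSectionVars false

namespace Pool.Agent.HP25.FM

open Pool.Agent.N978.HP
open Pool.Agent.N24.RW (ProNull t_CRIT t_CLO)

/-- the sieve for pronull sets -/
theorem pro_sieve {ι : Type} [Fintype ι] {R : Set ℕ} (hR : ∀ p ∈ R, p.Prime) (hdiv : Div R) {κ : ℝ} (hκ : 0 < κ)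
    (Ω : ∀ p : ℕ, Set (ι → ZMod p))
    (hΩ : ∀ p ∈ R, κ / (p : ℝ) * (p : ℝ) ^ Fintype.card ι ≤ ((Ω p).ncard : ℝ)) :
    ProNull {c : ι → ℤ | ∀ p ∈ R, (fun i => (c i : ZMod p)) ∉ Ω p} := by
  classical
  set w : ℕ → ℝ := fun p => if p ∈ R then κ / (p : ℝ) else 0 with hw
  have hns : ¬ Summable (fun p : ℕ => if p.Prime then w p else 0) := by
    intro hs
    rw [div_iff] at hdiv
    refine hdiv ((hs.mul_left κ⁻¹).congr fun p => ?_)
    by_cases hp : p ∈ R
    · rw [if_pos (hR p hp), hw, Set.indicator_of_mem hp]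
      simp only [hp, if_true]
      field_simp
    · rw [Set.indicator_of_notMem hp, hw]
      simp [hp]
  have h := t_CRIT ι (fun p => p) (fun p hp => hp.one_lt.le)
    (fun p p' hp hp' hne => (Nat.coprime_primes hp hp').2 hne)
    (fun p => if p ∈ R then Ω p else ∅) 0 w
    (fun p => by
      rw [hw]
      by_cases hp : p ∈ R
      · simp only [hp, if_true]
        positivity
      · simp [hp]) hns
    (fun p hp _ => by
      rw [hw]
      by_cases hpR : p ∈ R
      · simp only [hpR, if_true]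
        exact hΩ p hpR
      · simp [hpR])
  refine (t_CLO ι).1 _ _ ?_ h
  intro c hc p hp _ hcon
  by_cases hpR : p ∈ R
  · rw [if_pos hpR] at hcon
    exact hc p hpR hcon
  · rw [if_neg hpR] at hcon
    exact hcon

/-- from a congruence for homogeneous coordinates to one for the point -/
lemma at_cong {R : Set ℕ} {c : ℕ → Pt} {x : Fin 2 → ℤ} {p : ℕ} (hp : p.Prime) (hpR : p ∈ R)
    (h0 : ¬ ((p : ℤ) ∣ x 0 ∧ (p : ℤ) ∣ x 1)) (h : (p : ℤ) ∣ x 0 * (c p).b - x 1 * (c p).a) :
    At (fun t => ∃ p ∈ R, t.Cong p (c p)) x := by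
  refine ⟨fun hx => h0 (by simp [hx]), ?_⟩
  rintro t ⟨g, hg0, hg1⟩
  refine ⟨p, hpR, ?_⟩
  have h1 : x 0 * (c p).b - x 1 * (c p).a = g * (t.a * (c p).b - t.b * (c p).a) := by
    rw [hg0, hg1]
    ring
  rw [h1] at h
  rcases (Nat.prime_iff_prime_int.1 hp).dvd_or_dvd h with h2 | h2
  · exact absurd ⟨hg0 ▸ Dvd.dvd.mul_right h2 _, hg1 ▸ Dvd.dvd.mul_right h2 _⟩ h0
  · exact h2

lemma at_and {A B : Pt → Prop} {x : Fin 2 → ℤ} (hA : At A x) (hB : At B x) : At (fun t => A t ∧ B t) x :=
  ⟨hA.1, fun t ht => ⟨hA.2 t ht, hB.2 t ht⟩⟩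

lemma at_mono {A B : Pt → Prop} {x : Fin 2 → ℤ} (hA : At A x) (h : ∀ t, A t → B t) : At B x :=
  ⟨hA.1, fun t ht => h t (hA.2 t ht)⟩

/-- the pairs of homogeneous coordinates -/
theorem notion_vec : Notion (fun _ _ => True) (fun A => ProNull {x : Fin 2 → ℤ | ¬ At A x}) where
  top := by
    refine (t_CLO (Fin 2)).1 _ {0} ?_ ((t_CLO (Fin 2)).2.2.1 inferInstance _ (Set.finite_singleton 0))
    intro x hx
    by_contra hcon
    exact hx ⟨hcon, fun _ _ => trivial⟩
  mono := fun hA h => (t_CLO (Fin 2)).1 _ _ (fun x hx hcon => hx (at_mono hcon h)) hA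
  and := fun {A B} hA hB => by
    refine (t_CLO (Fin 2)).1 _ _ ?_ ((t_CLO (Fin 2)).2.1 _ _ hA hB)
    intro x hx
    by_contra hcon
    rw [Set.mem_union, not_or] at hcon
    exact hx (at_and (not_not.1 hcon.1) (not_not.1 hcon.2))
  sv := fun R c hR _ hdiv => by
    set Ω : ∀ p : ℕ, Set (Fin 2 → ZMod p) := fun p =>
      {y | y ≠ 0 ∧ y 0 * ((c p).b : ZMod p) = y 1 * ((c p).a : ZMod p)} with hΩ
    refine (t_CLO (Fin 2)).1 _ _ ?_ (pro_sieve hR hdiv (κ := 1 / 2) (by norm_num) Ω fun p hpR => ?_)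
    · intro x hx p hpR hcon
      apply hx
      obtain ⟨h1, h2⟩ := hcon
      refine at_cong (hR p hpR) hpR ?_ ?_
      · rintro ⟨h3, h4⟩
        apply h1
        funext i
        fin_cases i
        · exact (ZMod.intCast_zmod_eq_zero_iff_dvd _ p).2 h3
        · exact (ZMod.intCast_zmod_eq_zero_iff_dvd _ p).2 h4
      · rw [← ZMod.intCast_zmod_eq_zero_iff_dvd]
        push_cast
        rw [sub_eq_zero]
        exact h2
    · have hp := hR p hpR
      have : Fact p.Prime := ⟨hp⟩
      have hp0 : (p : ℝ) ≠ 0 := by exact_mod_cast hp.ne_zero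
      have hne : ¬ (((c p).a : ZMod p) = 0 ∧ ((c p).b : ZMod p) = 0) := by
        rintro ⟨h1, h2⟩
        obtain ⟨u, v, huv⟩ := (c p).coprime
        have h3 := congrArg (fun z : ℤ => (z : ZMod p)) huv
        push_cast at h3
        rw [h1, h2, mul_zero, mul_zero, add_zero] at h3
        exact zero_ne_one h3
      let f : (ZMod p)ˣ → (Fin 2 → ZMod p) := fun u => ![u * (c p).a, u * (c p).b]
      have hf : Function.Injective f := by
        intro u v huv
        have h1 := congrFun huv 0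
        have h2 := congrFun huv 1
        simp only [f, Matrix.cons_val_zero, Matrix.cons_val_one] at h1 h2
        by_cases ha : ((c p).a : ZMod p) = 0
        · have hb : ((c p).b : ZMod p) ≠ 0 := fun h => hne ⟨ha, h⟩
          exact Units.ext (mul_right_cancel₀ hb h2)
        · exact Units.ext (mul_right_cancel₀ ha h1)
      have hsub : Set.range f ⊆ Ω p := by
        rintro _ ⟨u, rfl⟩
        refine ⟨fun h0 => hne ⟨?_, ?_⟩, ?_⟩
        · have := congrFun h0 0
          simpa [f] using this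
        · have := congrFun h0 1
          simpa [f] using this
        · simp only [f, Matrix.cons_val_zero, Matrix.cons_val_one]
          ring
      have hcard : (Set.range f).ncard = p - 1 := by
        rw [← Set.image_univ, Set.ncard_image_of_injective _ hf, Set.ncard_univ, Nat.card_eq_fintype_card,
          ZMod.card_units_eq_totient, Nat.totient_prime hp]
      have h1 : p - 1 ≤ (Ω p).ncard := by
        rw [← hcard]
        exact Set.ncard_le_ncard hsub (Set.toFinite _)
      have h2 : ((p - 1 : ℕ) : ℝ) ≤ ((Ω p).ncard : ℝ) := by exact_mod_cast h1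
      rw [Nat.cast_sub hp.one_lt.le, Nat.cast_one] at h2
      have h3 : (2 : ℝ) ≤ p := by exact_mod_cast hp.two_le
      rw [Fintype.card_fin]
      have h4 : (1 : ℝ) / 2 / (p : ℝ) * (p : ℝ) ^ 2 = (p : ℝ) / 2 := by
        field_simp
      rw [h4]
      linarith

/-- the integers, for a fractional linear parametrization -/
theorem notion_int {a b c d : ℤ} (hdet : a * d - b * c ≠ 0) :
    Notion (fun p t => ¬ (p : ℤ) ∣ t.a * c - t.b * a ∧ ¬ (p : ℤ) ∣ a * d - b * c)
      (fun A => ProNull {x : Fin 1 → ℤ | ¬ At A (lft a b c d (x 0))}) where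
  top := by
    refine (t_CLO (Fin 1)).1 _ ∅ ?_ ((t_CLO (Fin 1)).2.2.1 inferInstance _ Set.finite_empty)
    intro x hx
    refine hx ⟨fun h0 => hdet ?_, fun _ _ => trivial⟩
    have h1 : a * x 0 + b = 0 := congrFun h0 0
    have h2 : c * x 0 + d = 0 := congrFun h0 1
    linear_combination a * h2 - c * h1
  mono := fun hA h => (t_CLO (Fin 1)).1 _ _ (fun x hx hcon => hx (at_mono hcon h)) hA
  and := fun {A B} hA hB => by
    refine (t_CLO (Fin 1)).1 _ _ ?_ ((t_CLO (Fin 1)).2.1 _ _ hA hB)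
    intro x hx
    by_contra hcon
    rw [Set.mem_union, not_or] at hcon
    exact hx (at_and (not_not.1 hcon.1) (not_not.1 hcon.2))
  sv := fun R t hR hok hdiv => by
    set Ω : ∀ p : ℕ, Set (Fin 1 → ZMod p) := fun p =>
      {y | y 0 * (((t p).a * c - (t p).b * a : ℤ) : ZMod p) = (((t p).b * b - (t p).a * d : ℤ) : ZMod p)} with hΩ
    refine (t_CLO (Fin 1)).1 _ _ ?_ (pro_sieve hR hdiv (κ := 1) one_pos Ω fun p hpR => ?_)
    · intro x hx p hpR hcon
      apply hx
      have hcon' : (x 0 : ZMod p) * (((t p).a * c - (t p).b * a : ℤ) : ZMod p) =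
        (((t p).b * b - (t p).a * d : ℤ) : ZMod p) := hcon
      refine at_cong (hR p hpR) hpR ?_ ?_
      · rintro ⟨h3, h4⟩
        apply (hok p hpR).2
        have h3' : (p : ℤ) ∣ a * x 0 + b := h3
        have h4' : (p : ℤ) ∣ c * x 0 + d := h4
        have h5 := dvd_sub (Dvd.dvd.mul_left h4' a) (Dvd.dvd.mul_left h3' c)
        have h6 : a * (c * x 0 + d) - c * (a * x 0 + b) = a * d - b * c := by ring
        rwa [h6] at h5
      · show (p : ℤ) ∣ (a * x 0 + b) * (t p).b - (c * x 0 + d) * (t p).a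
        rw [← ZMod.intCast_zmod_eq_zero_iff_dvd]
        push_cast at hcon' ⊢
        linear_combination -hcon'
    · have hp := hR p hpR
      have : Fact p.Prime := ⟨hp⟩
      have hp0 : (p : ℝ) ≠ 0 := by exact_mod_cast hp.ne_zero
      rw [Fintype.card_fin]
      have h4 : (1 : ℝ) / (p : ℝ) * (p : ℝ) ^ 1 = 1 := by
        field_simp
      rw [h4]
      have hu : (((t p).a * c - (t p).b * a : ℤ) : ZMod p) ≠ 0 := fun h =>
        (hok p hpR).1 ((ZMod.intCast_zmod_eq_zero_iff_dvd _ p).1 h)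
      have h5 : (Ω p).Nonempty := by
        refine ⟨fun _ => (((t p).b * b - (t p).a * d : ℤ) : ZMod p) / (((t p).a * c - (t p).b * a : ℤ) : ZMod p), ?_⟩
        show _ / _ * _ = _
        exact div_mul_cancel₀ _ hu
      exact_mod_cast (Set.ncard_pos (Set.toFinite _)).2 h5

end Pool.Agent.HP25.FM
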