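import Mathlib
import Pool.Agent.Cov.PNT

/-!
# Prime numbers which avoid residue classes modulo finitely many primes
-/

set_option autoImplicit false

namespace Pool.Agent.HP25.FM

open Filter Topology Finset
open ArithmeticFunction.vonMangoldt (residueClass)

/-- the unit classes modulo `∏ p` which avoid the classes `r p` -/
noncomputable def cls (F : Finset ℕ) (r : ℕ → ℤ) (Q : ℕ) [NeZero Q] : Finset (ZMod Q) := by
  classical
  exact univ.filter fun y => IsUnit y ∧ ∀ p ∈ F, ¬ (p : ℤ) ∣ (y.val : ℤ) - r p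

lemma totient_prod (F : Finset ℕ) (hF : ∀ p ∈ F, p.Prime) : (∏ p ∈ F, p).totient = ∏ p ∈ F, (p - 1) := by
  classical
  induction F using Finset.induction_on with
  | empty => simp
  | insert a F ha ih =>
    rw [prod_insert ha, prod_insert ha, Nat.totient_mul, ih fun p hp => hF p (mem_insert_of_mem hp),
      Nat.totient_prime (hF a (mem_insert_self a F))]
    refine Nat.Coprime.prod_right fun p hp => ?_
    exact (Nat.coprime_primes (hF a (mem_insert_self a F)) (hF p (mem_insert_of_mem hp))).2 fun h => ha (h ▸ hp)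

lemma card_cls (F : Finset ℕ) (hF : ∀ p ∈ F, p.Prime) (r : ℕ → ℤ) (hr : ∀ p ∈ F, ¬ (p : ℤ) ∣ r p) (Q : ℕ) [NeZero Q]
    (hQ : Q = ∏ p ∈ F, p) : (cls F r Q).card ≤ ∏ p ∈ F, (p - 2) := by
  classical
  let T : ∀ p : ℕ, Finset (ZMod p) := fun p => if h : p.Prime then
    (have : NeZero p := ⟨h.ne_zero⟩
     univ.filter fun z : ZMod p => z ≠ 0 ∧ z ≠ (r p : ZMod p)) else ∅
  have hT : ∀ p ∈ F, (T p).card = p - 2 := by
    intro p hp
    have hpp := hF p hp
    have : NeZero p := ⟨hpp.ne_zero⟩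
    have h1 : T p = univ \ {0, (r p : ZMod p)} := by
      simp only [T, hpp, dif_pos]
      ext z
      simp [not_or]
    have hne : (0 : ZMod p) ≠ (r p : ZMod p) := fun h =>
      hr p hp ((ZMod.intCast_zmod_eq_zero_iff_dvd _ p).1 h.symm)
    rw [h1, card_sdiff_of_subset (subset_univ _), card_pair hne, card_univ, ZMod.card]
  rw [← prod_congr rfl hT, ← card_pi]
  refine card_le_card_of_injOn (fun y p _ => ((y.val : ℕ) : ZMod p)) ?_ ?_
  · intro y hy
    have hy' := hy
    simp only [cls, coe_filter, mem_univ, true_and, Set.mem_ofPred_eq] at hy'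
    obtain ⟨hu, hy2⟩ := hy'
    refine mem_coe.2 (mem_pi.2 fun p hp => ?_)
    have hpp := hF p hp
    simp only [T, hpp, dif_pos, mem_filter, mem_univ, true_and]
    refine ⟨fun h => ?_, fun h => ?_⟩
    · have h1 : p ∣ y.val := (ZMod.natCast_eq_zero_iff _ _).1 h
      have h2 : Nat.Coprime y.val Q := (ZMod.isUnit_iff_coprime _ _).1 (by rwa [ZMod.natCast_zmod_val])
      have h3 : p ∣ Q := hQ ▸ dvd_prod_of_mem _ hp
      exact hpp.one_lt.ne' (Nat.dvd_one.1 (h2 ▸ Nat.dvd_gcd h1 h3))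
    · apply hy2 p hp
      rw [← ZMod.intCast_zmod_eq_zero_iff_dvd]
      push_cast
      rw [sub_eq_zero]
      exact h
  · intro y _ y' _ hyy
    have h1 : ∀ p ∈ F, p ∣ ((y.val : ℤ) - y'.val).natAbs := by
      intro p hp
      have h2 := congrFun (congrFun hyy p) hp
      have h3 : (((y.val : ℤ) - y'.val : ℤ) : ZMod p) = 0 := by
        push_cast
        rw [sub_eq_zero]
        exact h2
      exact Int.natCast_dvd.1 ((ZMod.intCast_zmod_eq_zero_iff_dvd _ p).1 h3)
    have hdvd : ∀ k : ℕ, (∀ p ∈ F, p ∣ k) → Q ∣ k := fun k hk => by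
      rw [hQ]
      exact prod_primes_dvd _ (fun p hp => (hF p hp).prime) hk
    have h2 : Q ∣ ((y.val : ℤ) - y'.val).natAbs := hdvd _ h1
    have h3 : ((((y.val : ℤ) - y'.val : ℤ)) : ZMod Q) = 0 :=
      (ZMod.intCast_zmod_eq_zero_iff_dvd _ Q).2 (Int.natCast_dvd.2 h2)
    push_cast at h3
    rw [ZMod.natCast_zmod_val, ZMod.natCast_zmod_val, sub_eq_zero] at h3
    exact h3

lemma card_ratio (F : Finset ℕ) (hF : ∀ p ∈ F, p.Prime) (r : ℕ → ℤ) (hr : ∀ p ∈ F, ¬ (p : ℤ) ∣ r p) (Q : ℕ) [NeZero Q]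
    (hQ : Q = ∏ p ∈ F, p) : ((cls F r Q).card : ℝ) * ((Q.totient : ℝ))⁻¹ ≤ ∏ p ∈ F, (1 - 1 / (p : ℝ)) := by
  have h1 := card_cls F hF r hr Q hQ
  have h2 : (Q.totient : ℝ) = ∏ p ∈ F, ((p : ℝ) - 1) := by
    rw [hQ, totient_prod F hF]
    push_cast
    refine prod_congr rfl fun p hp => ?_
    rw [Nat.cast_sub (hF p hp).one_lt.le, Nat.cast_one]
  have h3 : ((cls F r Q).card : ℝ) ≤ ∏ p ∈ F, ((p : ℝ) - 2) := by
    refine (Nat.cast_le.2 h1).trans (le_of_eq ?_)
    push_cast
    refine prod_congr rfl fun p hp => ?_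
    rw [Nat.cast_sub (hF p hp).two_le]
    norm_num
  have h4 : 0 < (Q.totient : ℝ) := by
    rw [h2]
    refine prod_pos fun p hp => ?_
    have : (2 : ℝ) ≤ p := by exact_mod_cast (hF p hp).two_le
    linarith
  rw [← div_eq_mul_inv, div_le_iff₀ h4, h2, ← prod_mul_distrib]
  refine h3.trans (prod_le_prod (fun p hp => ?_) fun p hp => ?_)
  · have : (2 : ℝ) ≤ p := by exact_mod_cast (hF p hp).two_le
    linarith
  · have hp2 : (2 : ℝ) ≤ p := by exact_mod_cast (hF p hp).two_le
    have hp0 : (0 : ℝ) < p := by linarith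
    have h5 : (1 - 1 / (p : ℝ)) * ((p : ℝ) - 1) = (p : ℝ) - 2 + 1 / (p : ℝ) := by
      field_simp
      ring
    rw [h5]
    have : 0 < 1 / (p : ℝ) := by positivity
    linarith

/-- the primes up to `N` which avoid the classes -/
noncomputable def badp (F : Finset ℕ) (r : ℕ → ℤ) (N : ℕ) : Finset ℕ := by
  classical
  exact (Icc 1 N).filter fun q => q.Prime ∧ ∀ p ∈ F, ¬ (p : ℤ) ∣ (q : ℤ) - r p

lemma weight (F : Finset ℕ) (r : ℕ → ℤ) (Q : ℕ) [NeZero Q] (hQ : Q = ∏ p ∈ F, p) (N : ℕ) :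
    ((badp F r N).card : ℝ) * (Real.log N / 2) ≤ (Real.sqrt N + Q) * (Real.log N / 2) +
      ∑ y ∈ cls F r Q, ∑ k ∈ Icc 1 N, residueClass y k := by
  classical
  rcases Nat.eq_zero_or_pos N with h0 | hN
  · subst h0
    have h1 : (badp F r 0).card = 0 := by
      simp [badp]
    rw [h1]
    simp
  have hN1 : (1 : ℝ) ≤ N := by exact_mod_cast hN
  have hlog : 0 ≤ Real.log N := Real.log_nonneg hN1
  set S := badp F r N with hS
  set S' := S.filter fun q : ℕ => Real.sqrt N < (q : ℝ) ∧ ¬ q ∣ Q with hS'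
  have hsplit : (S.card : ℝ) ≤ (S'.card : ℝ) + (Real.sqrt N + Q) := by
    have h1 : S ⊆ S' ∪ ((Icc 1 ⌊Real.sqrt N⌋₊) ∪ Q.divisors) := by
      intro q hq
      rw [mem_union, mem_union]
      by_cases hq1 : Real.sqrt N < q
      · by_cases hq2 : q ∣ Q
        · right
          right
          exact Nat.mem_divisors.2 ⟨hq2, NeZero.ne Q⟩
        · left
          exact mem_filter.2 ⟨hq, hq1, hq2⟩
      · right
        left
        have hq' := hq
        simp only [hS, badp, mem_filter, mem_Icc] at hq'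
        exact mem_Icc.2 ⟨hq'.1.1, Nat.le_floor (not_lt.1 hq1)⟩
    have h2 := card_le_card h1
    have h3 : (S' ∪ ((Icc 1 ⌊Real.sqrt N⌋₊) ∪ Q.divisors)).card ≤ S'.card + (⌊Real.sqrt N⌋₊ + Q) := by
      refine (card_union_le _ _).trans (Nat.add_le_add_left ((card_union_le _ _).trans ?_) _)
      refine Nat.add_le_add (by rw [Nat.card_Icc]; omega) (Nat.card_divisors_le_self Q)
    have h4 : (S.card : ℝ) ≤ ((S'.card + (⌊Real.sqrt N⌋₊ + Q) : ℕ) : ℝ) := Nat.cast_le.2 (h2.trans h3)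
    push_cast at h4
    have h5 : ((⌊Real.sqrt N⌋₊ : ℕ) : ℝ) ≤ Real.sqrt N := Nat.floor_le (Real.sqrt_nonneg _)
    linarith
  have hmain : (S'.card : ℝ) * (Real.log N / 2) ≤ ∑ y ∈ cls F r Q, ∑ k ∈ Icc 1 N, residueClass y k := by
    have h1 : (S'.card : ℝ) * (Real.log N / 2) ≤ ∑ q ∈ S', ArithmeticFunction.vonMangoldt q := by
      rw [← nsmul_eq_mul]
      refine card_nsmul_le_sum _ _ _ fun q hq => ?_
      obtain ⟨hq1, hq2, hq3⟩ := mem_filter.1 hq
      have hq' := hq1
      simp only [hS, badp, mem_filter, mem_Icc] at hq'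
      rw [ArithmeticFunction.vonMangoldt_apply_prime hq'.2.1]
      have h6 : Real.log (Real.sqrt N) = Real.log N / 2 := Real.log_sqrt (by positivity)
      rw [← h6]
      exact Real.log_le_log (Real.sqrt_pos.2 (by linarith)) hq2.le
    refine h1.trans ?_
    rw [sum_comm]
    have hSsub : S' ⊆ Icc 1 N := (filter_subset _ _).trans (by
      rw [hS, badp]
      exact filter_subset _ _)
    refine (sum_le_sum fun q hq => ?_).trans (sum_le_sum_of_subset_of_nonneg hSsub fun k _ _ =>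
      sum_nonneg fun y _ => ArithmeticFunction.vonMangoldt.residueClass_nonneg y k)
    obtain ⟨hq1, hq2, hq3⟩ := mem_filter.1 hq
    have hq' := hq1
    simp only [hS, badp, mem_filter, mem_Icc] at hq'
    have hcl : (q : ZMod Q) ∈ cls F r Q := by
      simp only [cls, mem_filter, mem_univ, true_and]
      refine ⟨(ZMod.isUnit_iff_coprime _ _).2 ((Nat.Prime.coprime_iff_not_dvd hq'.2.1).2 hq3), ?_⟩
      intro p hp hcon
      apply hq'.2.2 p hp
      have hpQ : p ∣ Q := hQ ▸ dvd_prod_of_mem _ hp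
      rw [ZMod.val_natCast] at hcon
      have h7 : (p : ℤ) ∣ (q : ℤ) - ((q % Q : ℕ) : ℤ) := by
        have h8 : (Q : ℤ) ∣ (q : ℤ) - ((q % Q : ℕ) : ℤ) := by
          push_cast
          exact Int.dvd_self_sub_emod
        exact dvd_trans (by exact_mod_cast hpQ) h8
      have h9 := dvd_add h7 hcon
      have h10 : (q : ℤ) - ((q % Q : ℕ) : ℤ) + (((q % Q : ℕ) : ℤ) - r p) = (q : ℤ) - r p := by ring
      rwa [h10] at h9
    refine le_trans (le_of_eq ?_) (single_le_sum (f := fun y => residueClass y q)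
      (fun y _ => ArithmeticFunction.vonMangoldt.residueClass_nonneg y q) hcl)
    show _ = residueClass (q : ZMod Q) q
    unfold ArithmeticFunction.vonMangoldt.residueClass
    rw [Set.indicator_of_mem]
    exact rfl
  have h9 : (S.card : ℝ) * (Real.log N / 2) ≤ ((S'.card : ℝ) + (Real.sqrt N + Q)) * (Real.log N / 2) :=
    mul_le_mul_of_nonneg_right hsplit (by positivity)
  nlinarith

/-- **the proportion of the primes which avoid one class modulo each of finitely many primes** -/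
theorem primes_avoid (F : Finset ℕ) (hF : ∀ p ∈ F, p.Prime) (r : ℕ → ℤ) (hr : ∀ p ∈ F, ¬ (p : ℤ) ∣ r p)
    {ε : ℝ} (hε : 0 < ε) : ∀ᶠ N : ℕ in atTop,
      ((badp F r N).card : ℝ) ≤ (4 * ∏ p ∈ F, (1 - 1 / (p : ℝ)) + ε) * (Nat.primeCounting N : ℝ) := by
  classical
  set Q := ∏ p ∈ F, p with hQ
  have hQ0 : Q ≠ 0 := prod_ne_zero_iff.2 fun p hp => (hF p hp).ne_zero
  have : NeZero Q := ⟨hQ0⟩
  set κ := ∏ p ∈ F, (1 - 1 / (p : ℝ)) with hκ
  -- the sums over the classes
  have h1 : Tendsto (fun N : ℕ => (∑ y ∈ cls F r Q, ∑ k ∈ Icc 1 N, residueClass y k) / (N : ℝ)) atTop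
      (𝓝 (((cls F r Q).card : ℝ) * ((Q.totient : ℝ))⁻¹)) := by
    have h2 : ∀ y ∈ cls F r Q, Tendsto (fun N : ℕ => (∑ k ∈ Icc 1 N, residueClass y k) / (N : ℝ)) atTop
        (𝓝 ((Q.totient : ℝ))⁻¹) := by
      intro y hy
      have hy' := hy
      simp only [cls, mem_filter, mem_univ, true_and] at hy'
      have h3 := (Pool.Agent.Cov.PNT.pnt_residueClass hy'.1).comp tendsto_natCast_atTop_atTop
      refine h3.congr fun N => ?_
      simp only [Function.comp_apply, Nat.floor_natCast]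
    have h4 := tendsto_finsetSum (cls F r Q) h2
    rw [sum_const, nsmul_eq_mul] at h4
    refine h4.congr fun N => ?_
    rw [sum_div]
  have h5 : ∀ᶠ N : ℕ in atTop, (∑ y ∈ cls F r Q, ∑ k ∈ Icc 1 N, residueClass y k) / (N : ℝ) ≤ κ + ε / 8 :=
    h1.eventually_le_const (lt_of_le_of_lt (card_ratio F hF r hr Q hQ) (by linarith))
  have h6 : Tendsto (fun N : ℕ => (Nat.primeCounting N : ℝ) * Real.log N / N) atTop (𝓝 1) := by
    have h7 := Pool.Agent.Cov.PNT.pi_tendsto.comp tendsto_natCast_atTop_atTop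
    refine h7.congr fun N => ?_
    simp only [Function.comp_apply, Nat.floor_natCast]
  have h8 : ∀ᶠ N : ℕ in atTop, (1 : ℝ) / 2 ≤ (Nat.primeCounting N : ℝ) * Real.log N / N :=
    h6.eventually_const_le (by norm_num)
  have h9 : Tendsto (fun N : ℕ => (Real.sqrt N + Q) * Real.log N / (N : ℝ)) atTop (𝓝 0) := by
    have e1 : Tendsto (fun x : ℝ => Real.log x / x ^ ((1 : ℝ) / 2)) atTop (𝓝 0) := by
      have := (isLittleO_log_rpow_atTop (show (0 : ℝ) < 1 / 2 by norm_num)).tendsto_div_nhds_zero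
      exact this
    have e2 : Tendsto (fun N : ℕ => Real.log (N : ℝ) / (N : ℝ) ^ ((1 : ℝ) / 2)) atTop (𝓝 0) :=
      e1.comp tendsto_natCast_atTop_atTop
    have e3 : Tendsto (fun N : ℕ => (1 + (Q : ℝ)) * (Real.log (N : ℝ) / (N : ℝ) ^ ((1 : ℝ) / 2))) atTop (𝓝 0) := by
      simpa using e2.const_mul (1 + (Q : ℝ))
    refine squeeze_zero' ?_ ?_ e3
    · filter_upwards [eventually_ge_atTop 1] with N hN
      have : (1 : ℝ) ≤ N := by exact_mod_cast hN
      have := Real.log_nonneg this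
      positivity
    · filter_upwards [eventually_ge_atTop 1] with N hN
      have hN1 : (1 : ℝ) ≤ N := by exact_mod_cast hN
      have hl := Real.log_nonneg hN1
      have hs : 1 ≤ Real.sqrt N := by
        rw [Real.one_le_sqrt]
        exact hN1
      have hsq : Real.sqrt N * Real.sqrt N = N := Real.mul_self_sqrt (by linarith)
      rw [← Real.sqrt_eq_rpow, ← mul_div_assoc, div_le_div_iff₀ (by linarith) (by linarith)]
      have h10 : (Real.sqrt N + Q) * Real.sqrt N ≤ (1 + Q) * N := by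
        have h11 : Real.sqrt N ≤ N := by nlinarith
        have hQ' : (0 : ℝ) ≤ Q := Nat.cast_nonneg _
        nlinarith
      calc (Real.sqrt N + Q) * Real.log N * Real.sqrt N = ((Real.sqrt N + Q) * Real.sqrt N) * Real.log N := by ring
        _ ≤ ((1 + Q) * N) * Real.log N := mul_le_mul_of_nonneg_right h10 hl
        _ = _ := by ring
  have h10 : ∀ᶠ N : ℕ in atTop, (Real.sqrt N + Q) * Real.log N / (N : ℝ) ≤ ε / 4 :=
    h9.eventually_le_const (by positivity)
  filter_upwards [h5, h8, h10, eventually_ge_atTop 3] with N e5 e8 e10 hN3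
  have hN1 : (3 : ℝ) ≤ N := by exact_mod_cast hN3
  have hN0 : (0 : ℝ) < N := by linarith
  have hl : 0 < Real.log N := Real.log_pos (by linarith)
  rw [div_le_iff₀ hN0] at e5 e10
  rw [le_div_iff₀ hN0] at e8
  have hw := weight F r Q hQ N
  have hκ0 : 0 ≤ κ := prod_nonneg fun p hp => by
    have : (2 : ℝ) ≤ p := by exact_mod_cast (hF p hp).two_le
    rw [sub_nonneg, div_le_one (by linarith)]
    linarith
  -- combine
  have h11 : ((badp F r N).card : ℝ) * (Real.log N / 2) ≤ (2 * κ + ε / 2) * ((Nat.primeCounting N : ℝ) * Real.log N) := by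
    have h12 : ((badp F r N).card : ℝ) * (Real.log N / 2) ≤ (κ + ε / 4) * N := by nlinarith
    refine h12.trans ?_
    have h13 : (κ + ε / 4) * N = (2 * κ + ε / 2) * (1 / 2 * N) := by ring
    rw [h13]
    exact mul_le_mul_of_nonneg_left e8 (by positivity)
  have h14 : (((badp F r N).card : ℝ)) * (Real.log N / 2) ≤
      ((4 * κ + ε) * (Nat.primeCounting N : ℝ)) * (Real.log N / 2) := by
    refine h11.trans (le_of_eq ?_)
    ring
  exact le_of_mul_le_mul_right h14 (by positivity)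

end Pool.Agent.HP25.FM
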