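import Pool.Agent.HP25.FM.C
import Pool.Agent.HP25.FM.D
import Pool.Agent.N592.HP.SV

/-!
# The members at the prime numbers
-/

set_option autoImplicit false
set_option linter.unusedSectionVars false

namespace Pool.Agent.HP25.FM

open Filter Topology
open Pool.Agent.N978.HP

lemma fin_bad (A : ℕ → Prop) (N : ℕ) : ({q : ℕ | q ≤ N ∧ q.Prime ∧ ¬ A q} : Set ℕ).Finite :=
  (Set.finite_Iic N).subset fun _ h => h.1

lemma mostPrimes_iff (A : ℕ → Prop) : MostPrimes A ↔ ∀ ε : ℝ, 0 < ε → ∀ᶠ N : ℕ in atTop,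
    (({q : ℕ | q ≤ N ∧ q.Prime ∧ ¬ A q}.ncard : ℕ) : ℝ) ≤ ε * (Nat.primeCounting N : ℝ) := by
  have hpos : ∀ᶠ N : ℕ in atTop, (0 : ℝ) < (Nat.primeCounting N : ℝ) := by
    filter_upwards [eventually_ge_atTop 2] with N hN
    have h1 : 1 ≤ Nat.primeCounting N := by
      have h2 : Nat.primeCounting 2 ≤ Nat.primeCounting N := Nat.monotone_primeCounting hN
      have h3 : Nat.primeCounting 2 = 1 := by decide
      omega
    exact_mod_cast h1
  constructor
  · intro h ε hε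
    filter_upwards [h.eventually_le_const hε, hpos] with N hN hp
    rwa [div_le_iff₀ hp] at hN
  · intro h
    unfold MostPrimes
    rw [Metric.tendsto_atTop]
    intro ε hε
    obtain ⟨N₀, hN₀⟩ := eventually_atTop.1 ((h (ε / 2) (by positivity)).and hpos)
    refine ⟨N₀, fun N hN => ?_⟩
    obtain ⟨h1, h2⟩ := hN₀ N hN
    rw [Real.dist_eq, sub_zero, abs_of_nonneg (by positivity), div_lt_iff₀ h2]
    nlinarith

lemma MostPrimes.mono {A B : ℕ → Prop} (hA : MostPrimes A) (h : ∀ q, A q → B q) : MostPrimes B := by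
  rw [mostPrimes_iff] at hA ⊢
  intro ε hε
  filter_upwards [hA ε hε] with N hN
  refine (Nat.cast_le.2 (Set.ncard_le_ncard ?_ (fin_bad A N))).trans hN
  rintro q ⟨h1, h2, h3⟩
  exact ⟨h1, h2, fun h4 => h3 (h q h4)⟩

lemma MostPrimes.and {A B : ℕ → Prop} (hA : MostPrimes A) (hB : MostPrimes B) : MostPrimes fun q => A q ∧ B q := by
  rw [mostPrimes_iff] at hA hB ⊢
  intro ε hε
  filter_upwards [hA (ε / 2) (by positivity), hB (ε / 2) (by positivity)] with N h1 h2
  have h3 : ({q : ℕ | q ≤ N ∧ q.Prime ∧ ¬ (A q ∧ B q)} : Set ℕ) ⊆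
      {q : ℕ | q ≤ N ∧ q.Prime ∧ ¬ A q} ∪ {q : ℕ | q ≤ N ∧ q.Prime ∧ ¬ B q} := by
    rintro q ⟨ha, hb, hc⟩
    by_cases h4 : A q
    · right
      exact ⟨ha, hb, fun h5 => hc ⟨h4, h5⟩⟩
    · left
      exact ⟨ha, hb, h4⟩
  have h4 := (Set.ncard_le_ncard h3 ((fin_bad A N).union (fin_bad B N))).trans (Set.ncard_union_le _ _)
  have h5 : (({q : ℕ | q ≤ N ∧ q.Prime ∧ ¬ (A q ∧ B q)}.ncard : ℕ) : ℝ) ≤
      (({q : ℕ | q ≤ N ∧ q.Prime ∧ ¬ A q}.ncard : ℕ) : ℝ) + (({q : ℕ | q ≤ N ∧ q.Prime ∧ ¬ B q}.ncard : ℕ) : ℝ) := by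
    exact_mod_cast h4
  linarith

/-- the prime numbers, for a fractional linear parametrization -/
theorem notion_prime {a b c d : ℤ} (hdet : a * d - b * c ≠ 0) :
    Notion (fun p t => ¬ (p : ℤ) ∣ t.a * c - t.b * a ∧ ¬ (p : ℤ) ∣ t.b * b - t.a * d ∧ ¬ (p : ℤ) ∣ a * d - b * c)
      (fun A => MostPrimes fun q => At A (lft a b c d q)) where
  top := by
    rw [mostPrimes_iff]
    intro ε hε
    refine Eventually.of_forall fun N => ?_
    have h1 : ({q : ℕ | q ≤ N ∧ q.Prime ∧ ¬ At (fun _ => True) (lft a b c d q)} : Set ℕ) = ∅ := by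
      rw [Set.eq_empty_iff_forall_notMem]
      rintro q ⟨-, -, hx⟩
      refine hx ⟨fun h0 => hdet ?_, fun _ _ => trivial⟩
      have h1 : a * q + b = 0 := congrFun h0 0
      have h2 : c * q + d = 0 := congrFun h0 1
      linear_combination a * h2 - c * h1
    rw [h1, Set.ncard_empty]
    push_cast
    positivity
  mono := fun hA h => hA.mono fun q hq => at_mono hq h
  and := fun {A B} hA hB => (hA.and hB).mono fun q hq => at_and hq.1 hq.2
  sv := fun R t hR hok hdiv => by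
    classical
    rw [mostPrimes_iff]
    intro ε hε
    obtain ⟨F, hFR, -, hFs⟩ := Pool.Agent.N592.HP.exists_small R hR hdiv ∅ (ε / 8) (by positivity)
    have hex : ∀ p : ℕ, p ∈ R → ∃ r : ℤ, ¬ (p : ℤ) ∣ r ∧ ∀ q : ℤ, (p : ℤ) ∣ q - r →
        (p : ℤ) ∣ (a * q + b) * (t p).b - (c * q + d) * (t p).a := by
      intro p hp
      obtain ⟨h1, h2, -⟩ := hok p hp
      have hpp := Nat.prime_iff_prime_int.1 (hR p hp)
      obtain ⟨x, v, hxv⟩ := hpp.coprime_iff_not_dvd.2 h1
      refine ⟨v * ((t p).b * b - (t p).a * d), ?_, ?_⟩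
      · intro h3
        rcases hpp.dvd_or_dvd h3 with h4 | h4
        · have h5 : (p : ℤ) ∣ 1 := by
            rw [← hxv]
            exact dvd_add (dvd_mul_left _ _) (Dvd.dvd.mul_right h4 _)
          exact hpp.not_unit (isUnit_of_dvd_one h5)
        · exact h2 h4
      · rintro q ⟨k, hk⟩
        refine ⟨-k * ((t p).a * c - (t p).b * a) + x * ((t p).b * b - (t p).a * d), ?_⟩
        have hq : q = p * k + v * ((t p).b * b - (t p).a * d) := by linarith
        rw [hq]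
        linear_combination ((t p).a * d - (t p).b * b) * hxv
    choose! r hr1 hr2 using hex
    filter_upwards [primes_avoid F (fun p hp => hR p (hFR p hp)) r (fun p hp => hr1 p (hFR p hp))
      (show 0 < ε / 2 by positivity)] with N hN
    have h1 : (({q : ℕ | q ≤ N ∧ q.Prime ∧ ¬ At (fun t' => ∃ p ∈ R, t'.Cong p (t p)) (lft a b c d q)}.ncard : ℕ) : ℝ) ≤
        ((badp F r N).card : ℝ) := by
      rw [← Set.ncard_coe_finset]
      refine Nat.cast_le.2 (Set.ncard_le_ncard ?_ (Finset.finite_toSet _))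
      rintro q ⟨h2, h3, h4⟩
      rw [Finset.mem_coe, badp, Finset.mem_filter, Finset.mem_Icc]
      refine ⟨⟨h3.one_lt.le, h2⟩, h3, fun p hp hdvd => h4 ?_⟩
      have hpR := hFR p hp
      refine at_cong (hR p hpR) hpR ?_ (hr2 p hpR q hdvd)
      rintro ⟨h5, h6⟩
      apply (hok p hpR).2.2
      have h5' : (p : ℤ) ∣ a * q + b := h5
      have h6' : (p : ℤ) ∣ c * q + d := h6
      have h7 := dvd_sub (Dvd.dvd.mul_left h6' a) (Dvd.dvd.mul_left h5' c)
      have h8 : a * (c * q + d) - c * (a * q + b) = a * d - b * c := by ring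
      rwa [h8] at h7
    refine h1.trans (hN.trans ?_)
    have h9 : (0 : ℝ) ≤ (Nat.primeCounting N : ℝ) := Nat.cast_nonneg _
    nlinarith

end Pool.Agent.HP25.FM
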