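import Pool.Agent.HP25.FM.B
import Pool.Agent.Helper49D.Main

/-!
# Families of motives with connected monodromy, for every notion of almost all points for which the sieve holds

The proofs are those of `Pool.Agent.Helper49D` (helper49), with an arbitrary notion.
-/

set_option autoImplicit false
set_option linter.unusedSectionVars false

namespace Pool.Agent.HP25.FM

open NumberField IsDedekindDomain Polynomial Module Filter Topology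
  Pool.Agent.Y114.TF Pool.Agent.Y114.GF Pool.Agent.H204R3.GP
  Pool.Agent.Y114.MU Pool.Agent.Y114.RM Pool.Agent.R931.IR Pool.Agent.N203.RE
  Pool.Agent.N978.HP Pool.Agent.Helper49C Pool.Agent.Helper49D

variable {Γ : Type} [Group Γ] [TopologicalSpace Γ] {ι : Type} [Fintype ι] [DecidableEq ι]
  {n : ι → ℕ} {s : Pt → Gal(AlgebraicClosure ℚ/ℚ) →* Γ} {w : ι → ℤ} {m : ℕ}
  {D : MvPolynomial (Fin 2) ℤ} {P : ℕ → Pt → ι → ℚ[X]}
  {ρ : ∀ (ℓ : ℕ) [Fact ℓ.Prime], Reps Γ n ℓ} {𝔤 : Submodule ℚ (End ℚ (Betti n))}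
  {ok : ℕ → Pt → Prop} {L : (Pt → Prop) → Prop}

theorem Notion.inU (N : Notion ok L) (hm : 0 < m) (hD : ∃ d, D.IsHomogeneous d) {t₀ : Pt} (h₀ : InU D t₀)
    (hok : ({p : ℕ | p.Prime ∧ ¬ ok p t₀} : Set ℕ).Finite) : L (InU D) := by
  have h1 : Div {p : ℕ | GoodAt m D t₀ p} := div_of_pos (posDensity_good hm h₀) fun p hp => hp.1
  refine N.mono (N.sv _ (fun _ => t₀) (fun p hp => hp.1.1) (fun p hp => ?_) (h1.diff hok)) ?_
  · by_contra hcon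
    exact hp.2 ⟨hp.1.1, hcon⟩
  · rintro t ⟨p, hp, hcong⟩
    exact inU_of_good (good_of_cong hD hp.1 hcong)

/-- Almost all members have the full image at `ℓ₀`, if this is so for one member. -/
theorem Notion.full (N : Notion ok L) (h : Family s w m D P ρ 𝔤)
    (hF : FrobeniusReduction s m D ρ) {t₀ : Pt} (ht₀ : InU D t₀)
    (hok : ({p : ℕ | p.Prime ∧ ¬ ok p t₀} : Set ℕ).Finite) (ℓ₀ : ℕ) [hℓ₀ : Fact ℓ₀.Prime]
    (hfull : FullImage (ρ ℓ₀) (s t₀)) : L fun t => FullImage (ρ ℓ₀) (s t) := by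
  classical
  have hcomp : CompactSpace Gal(AlgebraicClosure ℚ/ℚ) := compact ℚ
  obtain ⟨k, hk⟩ := exists_level (ρ ℓ₀)
  have hs₀ := conts_member h ht₀ ℓ₀
  -- the congruence subgroup has finite index
  have hNf : (cong (ρ ℓ₀) k).FiniteIndex := by
    refine finiteIndex_of_surj (s t₀) _ (fun γ => ?_) ?_
    · obtain ⟨σ, hσ⟩ := hfull γ
      exact ⟨σ, Subgroup.normalCore_le _ (mem_cong_of_trivial (trivial_of_same hσ) k)⟩
    · have h1 : IsOpen (((cong (ρ ℓ₀) k).comap (s t₀) : Subgroup Gal(AlgebraicClosure ℚ/ℚ)) :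
          Set Gal(AlgebraicClosure ℚ/ℚ)) := by
        have h2 := isOpen_conj hs₀ k (1 : Γ) (1 : Γ)
        have h3 : (((cong (ρ ℓ₀) k).comap (s t₀) : Subgroup Gal(AlgebraicClosure ℚ/ℚ)) :
            Set Gal(AlgebraicClosure ℚ/ℚ)) = {σ | (1 : Γ) * s t₀ σ * 1 ∈ cong (ρ ℓ₀) k} := by
          ext σ
          show s t₀ σ ∈ cong (ρ ℓ₀) k ↔ (1 : Γ) * s t₀ σ * 1 ∈ cong (ρ ℓ₀) k
          rw [one_mul, mul_one]
        rw [h3]
        exact h2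
      have h3 := Subgroup.quotient_finite_of_isOpen _ h1
      exact Subgroup.finiteIndex_of_finite_quotient
  set N' : Subgroup Γ := (cong (ρ ℓ₀) k).normalCore with hN'
  have hN'n : N'.Normal := inferInstance
  have hN'f : N'.FiniteIndex := inferInstance
  have hfin : Finite (Γ ⧸ N') := Subgroup.finite_quotient_of_finiteIndex
  have hop := isOpen_core (ρ ℓ₀) (s t₀) hs₀ k hNf
  have hB : ({p : ℕ | p.Prime ∧ ¬ GoodAt m D t₀ p} ∪ {ℓ₀} : Set ℕ).Finite :=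
    (badPrimes_finite h.pos ht₀).union (Set.finite_singleton _)
  -- one coset
  have hq : ∀ q : Γ ⧸ N', L fun t => ∃ σ : Gal(AlgebraicClosure ℚ/ℚ), ∃ δ : Γ,
      ((δ⁻¹ * s t σ * δ : Γ) : Γ ⧸ N') = q := by
    intro q
    obtain ⟨g, rfl⟩ := QuotientGroup.mk_surjective q
    obtain ⟨σ₀, hσ₀⟩ := hfull g
    have hg : g⁻¹ * s t₀ σ₀ ∈ N' := mem_cong_of_trivial (trivial_of_same hσ₀) k
    let O : Set Gal(AlgebraicClosure ℚ/ℚ) := {σ | σ₀⁻¹ * σ ∈ N'.comap (s t₀)}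
    have hO : IsOpen O := hop.preimage (continuous_const_mul σ₀⁻¹)
    have hne : O.Nonempty := ⟨σ₀, by
      show σ₀⁻¹ * σ₀ ∈ N'.comap (s t₀)
      rw [inv_mul_cancel]
      exact Subgroup.one_mem _⟩
    have hpos : PosDensity _ := primes_pos O hO hne _ hB
    refine N.mono (N.sv _ (fun _ => t₀) (fun p hp => hp.1.1) (fun p hp => by
      by_contra hcon
      exact hp.2 ⟨hp.1.1, hcon⟩) ((div_of_pos hpos fun p hp => hp.1).diff hok)) ?_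
    rintro t ⟨p, ⟨⟨hpp, hpB, v, hpv, hex⟩, -⟩, hcong⟩
    obtain ⟨φ, ⟨Q, hQ, hQv, hφ⟩, hφO⟩ : ∃ φ : Gal(AlgebraicClosure ℚ/ℚ),
      Pool.Agent.W401.Cheb.IsFrob v φ ∧ φ⁻¹ ∈ O := hex
    have hgood₀ : GoodAt m D t₀ p := by
      by_contra hcon
      exact hpB (Or.inl ⟨hpp, hcon⟩)
    have hpℓ : p ≠ ℓ₀ := fun h' => hpB (Or.inr h')
    have hgood := good_of_cong h.form hgood₀ hcong
    obtain ⟨γ, hγ⟩ := hF ℓ₀ t t₀ p hgood hgood₀ hcong hpℓ v hpv Q ⟨hQ.isPrime, hQv⟩ φ hφ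
    refine ⟨φ⁻¹, γ, ?_⟩
    have h1 : ∀ i, ρ ℓ₀ i (γ⁻¹ * s t φ * γ) = ρ ℓ₀ i (s t₀ φ) := by
      intro i
      rw [map_mul, map_mul, hγ i, ← map_mul, ← map_mul]
      congr 1
      group
    have h2 : (γ⁻¹ * s t φ * γ)⁻¹ * s t₀ φ ∈ N' := mem_cong_of_trivial (trivial_of_same h1) k
    have h3 : s t₀ (σ₀⁻¹ * φ⁻¹) ∈ N' := hφO
    -- in the quotient
    have e1 : ((g : Γ) : Γ ⧸ N') = ((s t₀ σ₀ : Γ) : Γ ⧸ N') := QuotientGroup.eq.2 hg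
    have e2 : ((γ⁻¹ * s t φ * γ : Γ) : Γ ⧸ N') = ((s t₀ φ : Γ) : Γ ⧸ N') := QuotientGroup.eq.2 h2
    have e3 : ((s t₀ σ₀ : Γ) : Γ ⧸ N') = ((s t₀ φ⁻¹ : Γ) : Γ ⧸ N') := by
      refine QuotientGroup.eq.2 ?_
      rwa [← map_inv, ← map_mul]
    have e4 : (γ⁻¹ * s t φ⁻¹ * γ : Γ) = (γ⁻¹ * s t φ * γ)⁻¹ := by
      rw [map_inv]
      group
    rw [e1, e3, e4, map_inv]
    exact congrArg (fun x : Γ ⧸ N' => x⁻¹) e2
  refine N.mono (N.and (N.inU h.pos h.form ht₀ hok) (N.all hq)) ?_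
  rintro t ⟨ht, htq⟩
  have htop : (s t).range ⊔ N' = ⊤ := by
    refine sup_eq_top _ _ fun q => ?_
    obtain ⟨σ, δ, h1⟩ := htq q
    exact ⟨s t σ, ⟨σ, rfl⟩, δ, h1⟩
  have hcos : ∀ γ, ∃ h ∈ (s t).range, h⁻¹ * γ ∈ cong (ρ ℓ₀) k := by
    intro γ
    have h1 : γ ∈ (s t).range ⊔ N' := htop ▸ Subgroup.mem_top γ
    obtain ⟨y, hy, z, hz, rfl⟩ := Subgroup.mem_sup_of_normal_right.1 h1
    refine ⟨y, hy, ?_⟩
    rw [inv_mul_cancel_left]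
    exact Subgroup.normalCore_le _ hz
  exact full_of_cong (conts_member h ht ℓ₀) (hk _ hcos)

/-- **Almost all members, at every prime number.** -/
theorem Notion.connected (N : Notion ok L) (h : Family s w m D P ρ 𝔤)
    (hF : FrobeniusReduction s m D ρ) (r : ℕ) (hr : RatRankLE 𝔤 r)
    {t₀ : Pt} (ht₀ : InU D t₀) (hok : ({p : ℕ | p.Prime ∧ ¬ ok p t₀} : Set ℕ).Finite) (c : ℕ)
    (hc : ∀ v i, GoodAt m D t₀ (q v) → IntegralRoots c v (P (q v) t₀ i))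
    (ℓ₀ : ℕ) [hℓ₀ : Fact ℓ₀.Prime] (hfull : FullImage (ρ ℓ₀) (s t₀))
    (hconn : Connected (restrictTo (ρ ℓ₀) (s t₀))) (σ : Gal(AlgebraicClosure ℚ/ℚ))
    (hσ : IndependentEigenvalues (restrictTo (ρ ℓ₀) (s t₀)) σ r) :
    L fun t => InU D t ∧ FullImage (ρ ℓ₀) (s t) ∧ ∀ (ℓ : ℕ) [Fact ℓ.Prime],
      Semisimple (restrictTo (ρ ℓ) (s t)) ∧
        (TateMotivated (restrictTo (ρ ℓ) (s t)) 𝔤 ↔ EndosMotivated (restrictTo (ρ ℓ) (s t)) 𝔤) ∧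
        LargeRank (restrictTo (ρ ℓ) (s t)) 𝔤 r ∧
        (TypeA 𝔤 → TateMotivated (restrictTo (ρ ℓ) (s t)) 𝔤) := by
  have h1 := N.max h ht₀ hok c hc ℓ₀ σ r hσ (fun _ => 0)
    (fun i => ⟨Fin.elim0, fun k => k.elim0, fun e _ => Subsingleton.elim _ _⟩)
  have h2 := N.full h hF ht₀ hok ℓ₀ hfull
  refine N.mono (N.and h1 h2) ?_
  rintro t ⟨⟨F, hF2, hFp⟩, hft⟩
  obtain ⟨p₁, hp₁, -⟩ := exists_ne hF2 0
  obtain ⟨p₂, hp₂, hne⟩ := exists_ne hF2 p₁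
  have htU : InU D t := inU_of_good (hFp p₁ hp₁).1
  refine ⟨htU, hft, fun ℓ hℓ => ?_⟩
  have hconn' : ZariskiConnected (restrictTo (ρ ℓ₀) (s t)) := by
    refine zariskiConnected_of_same (r₁ := restrictTo (ρ ℓ₀) (s t₀)) (fun a => ?_) (fun b => ?_)
      ((connected_iff _).1 hconn)
    · exact hft (s t₀ a)
    · obtain ⟨a, ha⟩ := hfull (s t b)
      exact ⟨a, fun i => (ha i).symm⟩
  obtain ⟨h3, h4, ⟨𝔥, hk, hred, hcen⟩, h6⟩ := Pool.Agent.Helper49C.main (fun v => P (q v) t) (badPlaces m D t)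
    (fun ℓ _ => restrictTo (ρ ℓ) (s t)) (member_realizations h htU) r hr hne.symm
    (member_maximal (hFp p₁ hp₁).1 (hFp p₁ hp₁).2.1)
    (member_maximal (hFp p₂ hp₂).1 (hFp p₂ hp₂).2.1) ℓ₀ hconn' ℓ
  exact ⟨h3, h4, ⟨𝔥, hk, hred, fun Z hZ => hcen Z hZ.1 hZ.2⟩, fun hA => h6 (typeA_of hA)⟩

end Pool.Agent.HP25.FM
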