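import Pool.Agent.HP25.FM.Defs
import Pool.Agent.HP25.TW.F
import Pool.Agent.N24.RW.All

/-!
# Countably many properties which fail on pronull sets only: where they hold (helper25)
-/

set_option autoImplicit false
set_option linter.unusedSectionVars false

namespace Pool.Agent.HP25.FM

open MeasureTheory ProbabilityTheory Filter Topology
open Pool.Agent.N24.RW (ProNull Walk orb words)

section

variable {ι : Type} [Fintype ι] {κ : Type} {G : κ → (ι → ℤ) → Prop}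

lemma good_of {c : ℕ → ι → ℤ} (h : Pool.Agent.HP25.TW.OneSet c (fun k : κ => {x : ι → ℤ | ¬ G k x})) : Good G c := by
  obtain ⟨E, hE, h1⟩ := h
  exact ⟨E, hE, fun k => h1 k⟩

lemma u_classes (hB : ∀ k, ProNull {x | ¬ G k x}) (k : κ) (M : ℕ) (ε : ℝ) (hM : 0 < M) (hε : 0 < ε) :
    ∃ q : ℕ, 0 < q ∧ q.Coprime M ∧
    ∃ B : Set (ι → ZMod q), (B.ncard : ℝ) ≤ ε * (q : ℝ) ^ Fintype.card ι ∧
      ∀ x : ι → ℤ, (fun i => (x i : ZMod q)) ∉ B → G k x := by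
  obtain ⟨q, hq, hqM, h⟩ := hB k M hM ε hε
  refine ⟨q, hq, hqM, _, h, fun x hx => ?_⟩
  by_contra hcon
  exact hx ⟨x, hcon, rfl⟩

lemma u_equi [Countable κ] (hB : ∀ k, ProNull {x | ¬ G k x}) (M : ℕ) (c : ℕ → ι → ℤ) (hM : 0 < M)
    (hc : Equidistributed M c) : Good G c :=
  good_of ((Pool.Agent.HP25.TW.equi_tendsto c hc).oneSet hB hM)

lemma hfree {Ω : Type} [MeasurableSpace Ω] {P : Measure Ω} {D : ℕ} {η : ℝ} {d : ι → ℕ → Ω → ℤ}
    (h : Digits P D η d) : Pool.Agent.HP25.TW.Free P D η d := ⟨h.meas, h.indep, h.bdd, h.atom⟩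

lemma u_unif (hB : ∀ k, ProNull {x | ¬ G k x}) (V : Set κ) (hV : V.Finite) (M : ℕ) (η ε : ℝ) (hη : 0 < η)
    (hε : 0 < ε) : ∃ k₀ : ℕ, ∀ k ≥ k₀,
    ∀ (Ω : Type) [MeasurableSpace Ω] (P : Measure Ω) [IsProbabilityMeasure P] (δ : ι → ℕ → Ω → ℤ),
    Digits P M η δ → ∀ γ : ι → ℕ → ℤ, (∀ i, ∀ j < k, Smooth M (γ i j)) → ∀ u : ι → ℤ,
    P.real {w | ∃ v ∈ V, ¬ G v (rsum u γ k δ w)} ≤ ε := by
  obtain ⟨K₀, hK₀⟩ := Pool.Agent.HP25.TW.uniform (fun k => {x : ι → ℤ | ¬ G k x}) hB hV M hη hε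
  exact ⟨K₀, fun k hk Ω _ P _ δ hδ γ hγ u => hK₀ k hk Ω P δ (hfree hδ) γ hγ u⟩

lemma u_sums [Countable κ] (hB : ∀ k, ProNull {x | ¬ G k x}) (Ω : Type) [MeasurableSpace Ω] (P : Measure Ω)
    [IsProbabilityMeasure P] (M : ℕ) (η : ℝ)
    (δ : ι → ℕ → Ω → ℤ) (hη : 0 < η) (hδ : Digits P M η δ) (γ : ℕ → ι → ℕ → ℤ)
    (hγ : ∀ n i, ∀ j < n, Smooth M (γ n i j)) (u : ℕ → ι → ℤ) :
    ∀ᵐ w ∂P, Good G fun n => rsum (u n) (γ n) n δ w := by
  filter_upwards [Pool.Agent.HP25.TW.ae_sums (hfree hδ) hη γ hγ u] with w hw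
  exact good_of (hw.oneSet hB (Nat.factorial_pos _))

lemma u_normal [Countable κ] (hB : ∀ k, ProNull {x | ¬ G k x}) (β : ℕ) (α : ι → ℝ) (hβ : 2 ≤ β)
    (hα : Normal β α) : Good G fun n i => ⌊(β : ℝ) ^ n * α i⌋ :=
  good_of (Pool.Agent.HP25.TW.Equi.oneSet hB one_pos (Pool.Agent.HP25.TW.normal hβ hα))

lemma u_decay [Countable κ] (hB : ∀ k, ProNull {x | ¬ G k x}) (ν : Measure (ι → ℝ)) [IsFiniteMeasure ν]
    (hν : FourierDecay ν) (a : ι → ℕ → ℝ) (t₀ : ℝ) (ht₀ : 0 < t₀)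
    (ha : ∀ i l n, l ≠ n → t₀ ≤ |a i l - a i n|) (β : ι → ℕ → ℝ) :
    ∀ᵐ α ∂ν, Good G fun n i => ⌊a i n * α i + β i n⌋ := by
  filter_upwards [Pool.Agent.HP25.TW.decay hν a ht₀ ha β] with α hα
  exact good_of (hα.oneSet hB one_pos)

theorem usual [Countable κ] (hB : ∀ k, ProNull {x | ¬ G k x}) : Usual G where
  classes := u_classes hB
  equi := u_equi hB
  unif := u_unif hB
  sums := u_sums hB
  normal := u_normal hB
  decay := u_decay hB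

end

/-- random walks -/
theorem walks {ι : Type} [Fintype ι] [DecidableEq ι] (h2 : 2 ≤ Fintype.card ι) {κ : Type} [Countable κ]
    {G : κ → (ι → ℤ) → Prop} (hB : ∀ k, ProNull {x | ¬ G k x}) (W : Walk ι) (v : ι → ℤ) (hv : v ≠ 0) :
    ∀ᵐ w ∂(words W.m), Good G (orb W v w) := by
  have h0 : ∀ k, Pool.Agent.N24.RW.AlmostNever W v {x | ¬ G k x} := fun k =>
    Pool.Agent.N24.RW.main ι h2 W v hv {x | ¬ G k x} (hB k)
  unfold Pool.Agent.N24.RW.AlmostNever at h0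
  have h1 := ae_all_iff.2 h0
  filter_upwards [h1] with w hw
  exact good_of (Pool.Agent.N18.KM.one_set (orb W v w) (fun k => {x | ¬ G k x}) hw)

end Pool.Agent.HP25.FM
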