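import Pool.Agent.HP25.FM.E

/-!
# Finitely many exceptional primes
-/

set_option autoImplicit false
set_option linter.unusedSectionVars false

namespace Pool.Agent.HP25.FM

open Pool.Agent.N978.HP

lemma fin_dvd {z : ℤ} (hz : z ≠ 0) : ({p : ℕ | (p : ℤ) ∣ z} : Set ℕ).Finite := by
  refine (z.natAbs.divisors.finite_toSet).subset fun p hp => ?_
  exact Finset.mem_coe.2 (Nat.mem_divisors.2 ⟨Int.natCast_dvd.1 hp, Int.natAbs_ne_zero.2 hz⟩)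

/-- a zero of `C` modulo `p` which is congruent to `(a : c)` -/
lemma zero_dvd {a b c d : ℤ} (hdet : a * d - b * c ≠ 0) {C : MvPolynomial (Fin 2) ℤ} {e : ℕ} (hC : C.IsHomogeneous e)
    {p : ℕ} (hp : p.Prime) {t : Pt} (ht : (p : ℤ) ∣ t.val C) (h : (p : ℤ) ∣ t.a * c - t.b * a) :
    (p : ℤ) ∣ a * d - b * c ∨ (p : ℤ) ∣ MvPolynomial.eval ![a, c] C := by
  by_cases hpd : (p : ℤ) ∣ a * d - b * c
  · exact Or.inl hpd
  right
  have hpp := Nat.prime_iff_prime_int.1 hp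
  have hne : ¬ (a = 0 ∧ c = 0) := by
    rintro ⟨rfl, rfl⟩
    simp at hdet
  have hg : Int.gcd a c ≠ 0 := by
    intro h0
    exact hne (Int.gcd_eq_zero_iff.1 h0)
  obtain ⟨a', ha'⟩ : (Int.gcd a c : ℤ) ∣ a := Int.gcd_dvd_left ..
  obtain ⟨c', hc'⟩ : (Int.gcd a c : ℤ) ∣ c := Int.gcd_dvd_right ..
  set g : ℤ := (Int.gcd a c : ℤ) with hgdef
  have hg0 : g ≠ 0 := Int.natCast_ne_zero.2 hg
  have hcop : IsCoprime a' c' := by
    have h1 : (Int.gcd a c : ℤ) = a * Int.gcdA a c + c * Int.gcdB a c := Int.gcd_eq_gcd_ab a c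
    refine ⟨Int.gcdA a c, Int.gcdB a c, ?_⟩
    apply mul_left_cancel₀ hg0
    rw [mul_one]
    calc g * (Int.gcdA a c * a' + Int.gcdB a c * c') = (g * a') * Int.gcdA a c + (g * c') * Int.gcdB a c := by ring
      _ = a * Int.gcdA a c + c * Int.gcdB a c := by rw [← ha', ← hc']
      _ = g := h1.symm
  have hpg : ¬ (p : ℤ) ∣ g := by
    intro h1
    apply hpd
    have h2 : (p : ℤ) ∣ a := ha' ▸ Dvd.dvd.mul_right h1 _
    have h3 : (p : ℤ) ∣ c := hc' ▸ Dvd.dvd.mul_right h1 _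
    exact dvd_sub (Dvd.dvd.mul_right h2 _) (Dvd.dvd.mul_left h3 _)
  have hcong : t.Cong p ⟨a', c', hcop⟩ := by
    show (p : ℤ) ∣ t.a * c' - t.b * a'
    have h1 : t.a * c - t.b * a = g * (t.a * c' - t.b * a') := by
      calc t.a * c - t.b * a = t.a * (g * c') - t.b * (g * a') := by rw [← ha', ← hc']
        _ = _ := by ring
    rw [h1] at h
    exact (hpp.dvd_or_dvd h).resolve_left hpg
  have h1 : (p : ℤ) ∣ (⟨a', c', hcop⟩ : Pt).val C := dvd_of_cong hp hC hcong.symm ht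
  have h2 : (⟨a', c', hcop⟩ : Pt).val C = MvPolynomial.eval ![a', c'] C := rfl
  have h3 : MvPolynomial.eval ![a, c] C = g ^ e * MvPolynomial.eval ![a', c'] C := by
    rw [← ev_int, ← ev_int, ← ev_scale hC, ← ha', ← hc']
  rw [h3]
  exact Dvd.dvd.mul_left (h2 ▸ h1) _

/-- the exceptional primes of a point -/
lemma fin_point {t : Pt} {a b c d : ℤ} (hdet : a * d - b * c ≠ 0) (h1 : t.a * c - t.b * a ≠ 0) :
    ({p : ℕ | p.Prime ∧ ¬ (¬ (p : ℤ) ∣ t.a * c - t.b * a ∧ ¬ (p : ℤ) ∣ a * d - b * c)} : Set ℕ).Finite := by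
  refine ((fin_dvd h1).union (fin_dvd hdet)).subset ?_
  rintro p ⟨-, h⟩
  by_contra hcon
  rw [Set.mem_union, not_or] at hcon
  exact h ⟨hcon.1, hcon.2⟩

lemma fin_zeros {a b c d : ℤ} (hdet : a * d - b * c ≠ 0) {C : MvPolynomial (Fin 2) ℤ}
    (hC : ∃ e, 0 < e ∧ C.IsHomogeneous e) (h1 : MvPolynomial.eval ![a, c] C ≠ 0) :
    ({p : ℕ | p.Prime ∧ ∃ t : Pt, (p : ℤ) ∣ t.val C ∧
      ¬ (¬ (p : ℤ) ∣ t.a * c - t.b * a ∧ ¬ (p : ℤ) ∣ a * d - b * c)} : Set ℕ).Finite := by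
  obtain ⟨e, -, hC⟩ := hC
  refine ((fin_dvd h1).union (fin_dvd hdet)).subset ?_
  rintro p ⟨hp, t, ht, h⟩
  by_contra hcon
  rw [Set.mem_union, not_or] at hcon
  apply h
  refine ⟨fun h2 => ?_, hcon.2⟩
  rcases zero_dvd hdet hC hp ht h2 with h3 | h3
  · exact hcon.2 h3
  · exact hcon.1 h3

/-- the exceptional primes of a point, for two excluded targets -/
lemma fin_point' {t : Pt} {a b c d : ℤ} (hdet : a * d - b * c ≠ 0) (h1 : t.a * c - t.b * a ≠ 0)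
    (h2 : t.a * d - t.b * b ≠ 0) :
    ({p : ℕ | p.Prime ∧ ¬ (¬ (p : ℤ) ∣ t.a * c - t.b * a ∧ ¬ (p : ℤ) ∣ t.b * b - t.a * d ∧
      ¬ (p : ℤ) ∣ a * d - b * c)} : Set ℕ).Finite := by
  have h2' : t.b * b - t.a * d ≠ 0 := fun h => h2 (by linarith)
  refine (((fin_dvd h1).union (fin_dvd h2')).union (fin_dvd hdet)).subset ?_
  rintro p ⟨-, h⟩
  by_contra hcon
  rw [Set.mem_union, Set.mem_union, not_or, not_or] at hcon
  exact h ⟨hcon.1.1, hcon.1.2, hcon.2⟩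

lemma fin_zeros' {a b c d : ℤ} (hdet : a * d - b * c ≠ 0) {C : MvPolynomial (Fin 2) ℤ}
    (hC : ∃ e, 0 < e ∧ C.IsHomogeneous e) (h1 : MvPolynomial.eval ![a, c] C ≠ 0)
    (h2 : MvPolynomial.eval ![b, d] C ≠ 0) :
    ({p : ℕ | p.Prime ∧ ∃ t : Pt, (p : ℤ) ∣ t.val C ∧
      ¬ (¬ (p : ℤ) ∣ t.a * c - t.b * a ∧ ¬ (p : ℤ) ∣ t.b * b - t.a * d ∧ ¬ (p : ℤ) ∣ a * d - b * c)} : Set ℕ).Finite := by
  have hdet' : b * c - a * d ≠ 0 := fun h => hdet (by linarith)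
  refine ((fin_zeros hdet hC h1).union (fin_zeros hdet' hC h2)).subset ?_
  rintro p ⟨hp, t, ht, h⟩
  by_cases h3 : ¬ (p : ℤ) ∣ t.a * c - t.b * a ∧ ¬ (p : ℤ) ∣ a * d - b * c
  · right
    refine ⟨hp, t, ht, fun h4 => h ⟨h3.1, fun h5 => h4.1 ?_, h3.2⟩⟩
    have h6 : t.a * d - t.b * b = -(t.b * b - t.a * d) := by ring
    rw [h6]
    exact (dvd_neg).2 h5
  · left
    exact ⟨hp, t, ht, h3⟩

end Pool.Agent.HP25.FM
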