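import Pool.Agent.HP25.FM.G
import Pool.Agent.HP25.FM.H

/-!
# From an arbitrary notion of almost all points to sequences of members
-/

set_option autoImplicit false
set_option linter.unusedSectionVars false

namespace Pool.Agent.HP25.FM

open MeasureTheory
open Pool.Agent.N978.HP
open Pool.Agent.N24.RW (Walk orb words)

/-- the points ordered by height -/
theorem notion_height : Notion (fun _ _ => True) AlmostAll where
  top := by
    unfold AlmostAll
    simp
  mono := fun hA h => almostAll_mono hA h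
  and := fun hA hB => Pool.Agent.N592.HP.t_AA _ _ hA hB
  sv := fun R c hR _ hdiv => by
    refine almostAll_mono (Pool.Agent.N592.HP.t_SV R c hR hdiv 1) ?_
    rintro t ⟨F, hF, hFp⟩
    obtain ⟨p, hp⟩ := Finset.card_pos.1 hF
    exact ⟨p, hFp p hp⟩

/-- random walks of thin groups -/
theorem thin {G : Pt → Prop} (hvec : Pool.Agent.N24.RW.ProNull {x : Fin 2 → ℤ | ¬ At G x}) (W : Walk (Fin 2))
    (y : Fin 2 → ℤ) (hy : y ≠ 0) : ∀ᵐ ω ∂(words W.m),
      Good (fun v x : Fin 2 → ℤ => At G fun i => x i + v i) (orb W y ω) :=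
  walks (by simp) (fun v => Pool.Agent.HP25.TW.shift hvec v) W y hy

theorem everywhere {t₀ : Pt} {G : Pt → Prop}
    (h : ∀ (ok : ℕ → Pt → Prop) (L : (Pt → Prop) → Prop), Notion ok L →
      ({p : ℕ | p.Prime ∧ ¬ ok p t₀} : Set ℕ).Finite → L G) :
    Everywhere t₀ G := by
  classical
  have hheight : AlmostAll G := h _ _ notion_height ((Set.finite_empty).subset fun p hp => hp.2 trivial)
  have hvec : Pool.Agent.N24.RW.ProNull {x : Fin 2 → ℤ | ¬ At G x} :=
    h _ _ notion_vec ((Set.finite_empty).subset fun p hp => hp.2 trivial)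
  have hvec' : ∀ v : Fin 2 → ℤ, Pool.Agent.N24.RW.ProNull {x : Fin 2 → ℤ | ¬ At G fun i => x i + v i} := fun v =>
    Pool.Agent.HP25.TW.shift hvec v
  refine ⟨hheight, usual hvec', usual ?_, ?_⟩
  · rintro ⟨⟨a, b, c', d⟩, hg⟩
    exact h _ _ (notion_int hg.1) (fin_point hg.1 hg.2)
  · intro a b c' d hg hg'
    exact h _ _ (notion_prime hg.1) (fin_point' hg.1 hg.2 hg'.2)

end Pool.Agent.HP25.FM
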