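import Pool.Agent.HP25.FM.I
import Pool.Agent.HP25.FM.F

/-!
# Connected families: the main theorem
-/

set_option autoImplicit false

namespace Pool.Agent.HP25.FM

open Polynomial Module Pool.Agent.Y114.RM Pool.Agent.R931.IR Pool.Agent.N203.RE
  Pool.Agent.N978.HP Pool.Agent.Helper49D

theorem connected {Γ : Type} [Group Γ] [TopologicalSpace Γ] {ι : Type} [Fintype ι] [DecidableEq ι]
    {n : ι → ℕ}
    (s : Pt → Gal(AlgebraicClosure ℚ/ℚ) →* Γ) (w : ι → ℤ) (m : ℕ) (D : MvPolynomial (Fin 2) ℤ)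
    (P : ℕ → Pt → ι → ℚ[X]) (ρ : ∀ (ℓ : ℕ) [Fact ℓ.Prime], Reps Γ n ℓ)
    (𝔤 : Submodule ℚ (End ℚ (Betti n))) (h : Family s w m D P ρ 𝔤)
    (hF : FrobeniusReduction s m D ρ) (r : ℕ) (hr : RatRankLE 𝔤 r)
    (t₀ : Pt) (ht₀ : InU D t₀) (c : ℕ) (hc : IntegralMember m D P c t₀)
    (ℓ₀ : ℕ) [Fact ℓ₀.Prime] (hfull : FullImage (ρ ℓ₀) (s t₀))
    (hconn : Connected (restrictTo (ρ ℓ₀) (s t₀))) (σ : Gal(AlgebraicClosure ℚ/ℚ))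
    (hσ : IndependentEigenvalues (restrictTo (ρ ℓ₀) (s t₀)) σ r) :
    Everywhere t₀ (fun t => InU D t ∧ FullImage (ρ ℓ₀) (s t) ∧
      ∀ (ℓ : ℕ) [Fact ℓ.Prime],
      Semisimple (restrictTo (ρ ℓ) (s t)) ∧
      (TateMotivated (restrictTo (ρ ℓ) (s t)) 𝔤 ↔ EndosMotivated (restrictTo (ρ ℓ) (s t)) 𝔤) ∧
      LargeRank (restrictTo (ρ ℓ) (s t)) 𝔤 r ∧
      (TypeA 𝔤 → TateMotivated (restrictTo (ρ ℓ) (s t)) 𝔤)) ∧
    (TypeA 𝔤 → ∀ (ℓ : ℕ) [Fact ℓ.Prime], TateMotivated (ρ ℓ) 𝔤) := by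
  have hc' : ∀ v i, GoodAt m D t₀ (Pool.Agent.Y114.GF.q v) →
      Pool.Agent.R931.IR.IntegralRoots c v (P (Pool.Agent.Y114.GF.q v) t₀ i) := fun _ i hv a ha => hc _ hv i a ha
  have h1 := everywhere (t₀ := t₀) fun ok L N h1 =>
    N.connected h hF r hr ht₀ h1 c hc' ℓ₀ hfull hconn σ hσ
  refine ⟨h1, fun hA ℓ hℓ => ?_⟩
  obtain ⟨t, -, -, ht⟩ := exists_of_almostAll h1.height
  exact tate_generic h ((ht ℓ).2.2.2 hA)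

end Pool.Agent.HP25.FM
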